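import Pool.Agent.U233.DU.Gen
import Pool.Agent.N174.OC.Pub

/-!
# Motives of relative Fourier-Mukai partners
-/

set_option autoImplicit false

open scoped ComplexConjugate
open CategoryTheory Module Pool.Agent.W539.DI

universe u v

namespace Pool.Agent.U233.DU

open Pool.Agent.R941.OH Pool.Agent.R929.DH Pool.Agent.N174.OC
open Pool.Agent.U233.DT (Defect)

variable {𝒪 : Type u} [Category.{v} 𝒪] [Preadditive 𝒪] [Linear ℚ 𝒪] {n : ℕ}

variable (T : CycTheory 𝒪 n) {X Y : 𝒪}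

theorem iso_all {v : X ⟶ Y} {w : Y ⟶ X} (h : T.lin.IsDerivedPair v w) (hB : T.lin.ConjB X)
    (hB' : T.lin.ConjB Y) {L : (T.lin.K X).R} {L' : (T.lin.K Y).R}
    (aL : ∃ Γ : X ⟶ X, ∀ x, T.lin.act Γ x = L * x)
    (hX : DT.RelHR (T.lin.K X) L) (hY : DT.RelHR (T.lin.K Y) L')
    (hc : ∀ x, T.lin.act v ((T.lin.K X).c * x) = (T.lin.K Y).c * T.lin.act v x)
    (hL : ∀ x, T.lin.act v (L * x) = L' * T.lin.act v x)
    (hlow : ∀ (κ m : ℕ), m + κ + 3 ≤ n → ∃ (u : X ⟶ Y) (v : Y ⟶ X), ∀ p q : ℤ, p + q = m →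
      Match L L' (T.lin.act u) (T.lin.act v) κ p q) (m : ℕ) :
    T.lin.Iso X Y m := by
  obtain ⟨A, hA⟩ := exists_actM T.lin hB
  obtain ⟨B, hB₀⟩ := exists_actN T.lin h hB'
  have hΦ : ∀ a x, (fm T.lin h).φ (A.ρ a x) = B.ρ a ((fm T.lin h).φ x) := by
    intro a x
    rw [hA, hB₀, fm_apply, fm_apply, rhoF_apply]
    simp only [LinearMap.comp_apply, wv T.lin h]
  have _ := A.semisimple
  obtain ⟨Γ, hΓ⟩ := aL
  obtain ⟨ℓ, hℓ₀⟩ := exists_E T.lin (a := mu (T.lin.K X) L) ⟨Γ, LinearMap.ext hΓ⟩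
  have hℓ : A.ρ ℓ = mu (T.lin.K X) L := by rw [hA]; exact hℓ₀
  have hℓ' : B.ρ ℓ = mu (T.lin.K Y) L' := by
    ext y
    rw [hB₀, rhoF_apply, hℓ₀]
    show T.lin.act v (L * T.lin.act w y) = L' * y
    rw [hL, vw T.lin h]
  have hbar : ∀ a x, (T.lin.K X).bar (A.ρ a x) = A.ρ a ((T.lin.K X).bar x) := by
    intro a x
    rw [hA]
    obtain ⟨Γ, hΓ⟩ := rhoE_alg T.lin a
    rw [← hΓ, real_act]
  have hbar' : ∀ a y, (T.lin.K Y).bar (B.ρ a y) = B.ρ a ((T.lin.K Y).bar y) := by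
    intro a y
    rw [hB₀]
    obtain ⟨Γ, hΓ⟩ := rhoF_alg T.lin h a
    rw [← hΓ, real_act]
  have hsymm : ∀ y, (fm T.lin h).φ.symm y = T.lin.act w y := fun y => rfl
  obtain ⟨a, b, hab, hba⟩ := gen A B (fm T.lin h) hΦ ℓ hℓ hℓ' hbar hbar' hX hY hc hL
    (fun κ m' hm' => by
      obtain ⟨u, v', huv⟩ := hlow κ m' hm'
      obtain ⟨b, hb⟩ := exists_E T.lin (a := T.lin.act w ∘ₗ T.lin.act u)
        (IsAlg.comp T.lin (isAlg_act T.lin w) (isAlg_act T.lin u))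
      obtain ⟨a, ha⟩ := exists_E T.lin (a := T.lin.act v' ∘ₗ T.lin.act v)
        (IsAlg.comp T.lin (isAlg_act T.lin v') (isAlg_act T.lin v))
      refine ⟨T.lin.act u, T.lin.act v', ⟨b, fun x => ?_⟩, ⟨a, fun y => ?_⟩, huv⟩
      · rw [hA, hb, fm_apply, LinearMap.comp_apply, vw T.lin h]
      · rw [hA, ha, hsymm, LinearMap.comp_apply, vw T.lin h]) m
  refine iso_of_sameAlg T.lin ⟨T.lin.act v ∘ₗ rhoE T.lin X b, rhoE T.lin X a ∘ₗ T.lin.act w,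
      IsAlg.comp T.lin (isAlg_act T.lin v) (rhoE_alg T.lin b),
      IsAlg.comp T.lin (rhoE_alg T.lin a) (isAlg_act T.lin w), ?_, ?_⟩
  · rw [← A.rho_pD, hA, ← hab, map_mul]
    ext x
    simp only [Module.End.mul_apply, LinearMap.comp_apply, wv T.lin h]
  · rw [← B.rho_pD, hB₀, ← hba, map_mul]
    ext y
    rw [Module.End.mul_apply, rhoF_apply, rhoF_apply]
    simp only [LinearMap.comp_apply, wv T.lin h]

/-- Orlov's conjecture for relative Fourier-Mukai partners. -/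
theorem motive_low {v : X ⟶ Y} {w : Y ⟶ X} (h : T.IsDerivedPair v w) (hB : T.ConjB X)
    {L : (T.K X).R} {L' : (T.K Y).R} (aL : ∃ Γ : X ⟶ X, ∀ x, T.act Γ x = L * x)
    (hX : DT.RelHR (T.K X) L) (hY : DT.RelHR (T.K Y) L')
    (hc : ∀ x, T.act v ((T.K X).c * x) = (T.K Y).c * T.act v x)
    (hL : ∀ x, T.act v (L * x) = L' * T.act v x) (hlow : LowAlg T L L') :
    T.HomIso X Y ∧ (T.HomNilpotent X ∨ T.HomNilpotent Y → T.ChowIso X Y) := by
  have h' := pair_lin T h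
  have hB1 : T.lin.ConjB X := hB
  have hB' := conjB_trans T.lin hB1 h'
  obtain ⟨Z, hZ, Z', hZ', h5, h6, h7⟩ := N174.OC.motive T.lin hB1 hB'
    (iso_all T h' hB1 hB' aL hX hY hc hL hlow) h'
  refine ⟨⟨Z, hZ, Z', hZ', fun x => ?_, fun y => ?_⟩, fun hK => ⟨Z, hZ, h7 ?_⟩⟩
  · rw [← T.act_comp]
    exact congrArg (fun f : (T.K X).R →ₗ[ℂ] (T.K X).R => f x) h5
  · rw [← T.act_comp]
    exact congrArg (fun f : (T.K Y).R →ₗ[ℂ] (T.K Y).R => f y) h6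
  · exact hK.imp (nil_lin T) (nil_lin T)

theorem orlov {v : X ⟶ Y} {w : Y ⟶ X} {L : (T.K X).R} {L' : (T.K Y).R}
    (h : MPartners T v w L L') :
    (LowAlg T L L' → Orlov T X Y) ∧
    (Defect (T.K X) L 3 → Defect (T.K Y) L' 3 → BaseAlg T L L' → Orlov T X Y) ∧
    (Defect (T.K X) L 2 → Defect (T.K Y) L' 2 → Orlov T X Y) := by
  have key : LowAlg T L L' → Orlov T X Y := fun hl =>
    motive_low T h.pair h.lef h.algL h.hX h.hY h.c h.l hl
  have a0 : ∀ {X Y : 𝒪} (Γ : X ⟶ Y), T.act Γ 0 = 0 := by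
    intro X Y Γ
    have := T.act_smul' Γ 0 0
    simpa using this
  refine ⟨key, fun dX dY hb => key fun κ m hm => ?_, fun dX dY => key fun κ m hm => ?_⟩
  · obtain ⟨u, v, huv⟩ := hb
    exact ⟨u, v, fun p q hpq =>
      match_three h.hX.mem h.hY.mem (a0 u) (a0 v) dX dY (by omega) (huv κ p q)⟩
  · exact ⟨0, 0, fun p q hpq =>
      match_two h.hX.mem h.hY.mem (a0 0) (a0 0) dX dY (by omega)⟩

end Pool.Agent.U233.DU
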