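import Pool.Agent.R941.OH.Semi
import Pool.Agent.U233.DT.Lin

/-!
# Idempotents of semisimple algebras and ranks
-/

set_option autoImplicit false

open Module

namespace Pool.Agent.U233.DU

open Pool.Agent.R941.OH

section central

variable {E : Type} [Ring E] [IsSemisimpleRing E]

/-- The central idempotent of a simple left ideal. -/
theorem exists_central (S : Submodule E E) [IsSimpleModule E S] :
    ∃ π : E, π * π = π ∧ (∀ a, a * π = π * a) ∧
      (∀ x, x ∈ isotypicComponent E E S ↔ π * x = x) := by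
  set I : Submodule E E := isotypicComponent E E S with hI
  have hmem : I ∈ isotypicComponents E E := ⟨S, inferInstance, rfl⟩
  set J : Submodule E E := sSup (isotypicComponents E E \ {I}) with hJ
  have hdis : Disjoint I J := sSupIndep_isotypicComponents E E hmem
  have htop : I ⊔ J = ⊤ := by
    rw [← sSup_isotypicComponents E E, hJ, ← sSup_insert, Set.insert_sdiff_singleton,
      Set.insert_eq_of_mem hmem]
  have invI : I.IsFullyInvariant := Submodule.IsFullyInvariant.isotypicComponent E E S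
  have invJ : J.IsFullyInvariant := fun f => sSup_le fun N hN =>
    (Submodule.IsFullyInvariant.of_mem_isotypicComponents hN.1 f).trans
      (Submodule.comap_mono (le_sSup hN))
  have rI : ∀ x ∈ I, ∀ a, x * a ∈ I := fun x hx a =>
    invI (LinearMap.toSpanSingleton E E a) hx
  have rJ : ∀ x ∈ J, ∀ a, x * a ∈ J := fun x hx a =>
    invJ (LinearMap.toSpanSingleton E E a) hx
  have lI : ∀ x ∈ I, ∀ a, a * x ∈ I := fun x hx a => I.smul_mem a hx
  have lJ : ∀ x ∈ J, ∀ a, a * x ∈ J := fun x hx a => J.smul_mem a hx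
  have h0 : ∀ x, x ∈ I → x ∈ J → x = 0 := fun x h1 h2 => by
    have := hdis.le_bot (show x ∈ I ⊓ J from ⟨h1, h2⟩)
    exact (Submodule.mem_bot E).1 this
  obtain ⟨π, hπ, ρ, hρ, h1⟩ := Submodule.mem_sup.1 (show (1 : E) ∈ I ⊔ J by rw [htop]; trivial)
  have hc : ∀ a, a * π = π * a := by
    intro a
    have e1 : a * π + a * ρ = π * a + ρ * a := by rw [← mul_add, ← add_mul, h1, mul_one, one_mul]
    have e2 : a * π - π * a = ρ * a - a * ρ := by
      rw [sub_eq_sub_iff_add_eq_add, e1, add_comm]
    have := h0 (a * π - π * a) (I.sub_mem (lI π hπ a) (rI π hπ a))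
      (by rw [e2]; exact J.sub_mem (rJ ρ hρ a) (lJ ρ hρ a))
    exact sub_eq_zero.1 this
  have hI1 : ∀ x ∈ I, π * x = x := by
    intro x hx
    have h2 : ρ * x = 0 := h0 _ (lI x hx ρ) (rJ ρ hρ x)
    have h3 : (π + ρ) * x = x := by rw [h1, one_mul]
    rw [add_mul, h2, add_zero] at h3
    exact h3
  refine ⟨π, hI1 π hπ, hc, fun x => ⟨hI1 x, fun h => ?_⟩⟩
  rw [← h]
  exact rI π hπ x

end central

section rank

variable {E : Type} [Ring E] [Algebra ℚ E] [FiniteDimensional ℚ E] {R : Type} [AddCommGroup R]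
  [Module ℂ R] [FiniteDimensional ℂ R] (ρ : E →+* Module.End ℂ R)

/-- the rank of an operator -/
noncomputable def rkr (a : E) : ℕ := finrank ℂ (LinearMap.range (ρ a))

theorem rkr_swap {a b e g : E} (h1 : a * b = e) (h2 : b * a = g) (he : e * e = e)
    (hg : g * g = g) : rkr ρ e = rkr ρ g := by
  have key : ∀ (a b e g : E), a * b = e → b * a = g → e * e = e → rkr ρ e ≤ rkr ρ g := by
    intro a b e g h1 h2 he
    have e1 : e = a * g * b := by
      rw [← h2]
      calc e = e * e := he.symm
        _ = (a * b) * (a * b) := by rw [h1]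
        _ = _ := by simp only [mul_assoc]
    have h3 : LinearMap.range (ρ e) ≤ (LinearMap.range (ρ g)).map (ρ a) := by
      rintro _ ⟨x, rfl⟩
      refine ⟨ρ g (ρ b x), ⟨ρ b x, rfl⟩, ?_⟩
      rw [e1, map_mul, map_mul]
      rfl
    exact (Submodule.finrank_mono h3).trans (Submodule.finrank_map_le _ _)
  exact le_antisymm (key a b e g h1 h2 he) (key b a g e h2 h1 hg)

/-- If `g` is a proper part of `f` then its rank is smaller. -/
theorem rkr_lt (hρ : Function.Injective ρ) {f g : E} (hf : f * f = f) (hg : g * g = g)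
    (h1 : f * g = g) (h2 : g * f = g) (hne : g ≠ f) : rkr ρ g < rkr ρ f := by
  refine Submodule.finrank_lt_finrank_of_lt (lt_of_le_of_ne ?_ ?_)
  · rintro _ ⟨x, rfl⟩
    refine ⟨ρ g x, ?_⟩
    rw [← Module.End.mul_apply, ← map_mul, h1]
  · intro h
    apply hne
    apply hρ
    ext x
    obtain ⟨y, hy⟩ : ρ f x ∈ LinearMap.range (ρ g) := by
      rw [h]
      exact ⟨x, rfl⟩
    have h3 : ρ g (ρ f x) = ρ f x := by
      rw [← hy, ← Module.End.mul_apply, ← map_mul, hg]
    rw [← h3, ← Module.End.mul_apply, ← map_mul, h2]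

theorem rank_lt (hρ : Function.Injective ρ) {S : Submodule E E} [Nontrivial S] {e f : E}
    (he : e * e = e) (hf : f * f = f) {k l : ℕ} (hkl : k < l) (α : lid e ≃ₗ[E] (Fin k → S))
    (β : lid f ≃ₗ[E] (Fin l → S)) : rkr ρ e < rkr ρ f := by
  let ι : (Fin k → S) →ₗ[E] (Fin l → S) :=
    LinearMap.pi fun i => if h : (i : ℕ) < k then LinearMap.proj ⟨i, h⟩ else 0
  let r : (Fin l → S) →ₗ[E] (Fin k → S) := LinearMap.pi fun i => LinearMap.proj (Fin.castLE hkl.le i)
  have hri : ∀ x, r (ι x) = x := by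
    intro x
    ext i
    simp [r, ι]
  let φ : lid e →ₗ[E] lid f := β.symm.toLinearMap ∘ₗ ι ∘ₗ α.toLinearMap
  let ψ : lid f →ₗ[E] lid e := α.symm.toLinearMap ∘ₗ r ∘ₗ β.toLinearMap
  have hψφ : ∀ x, ψ (φ x) = x := by
    intro x
    show α.symm (r (β (β.symm (ι (α x))))) = x
    rw [LinearEquiv.apply_symm_apply, hri, LinearEquiv.symm_apply_apply]
  have keyφ : ∀ x : lid e, ((φ x : lid f) : E) = (x : E) * (φ ⟨e, he⟩ : lid f) := by
    intro x
    have : x = (x : E) • (⟨e, he⟩ : lid e) := Subtype.ext x.2.symm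
    conv_lhs => rw [this, map_smul, Submodule.coe_smul]
    rfl
  have keyψ : ∀ x : lid f, ((ψ x : lid e) : E) = (x : E) * (ψ ⟨f, hf⟩ : lid e) := by
    intro x
    have : x = (x : E) • (⟨f, hf⟩ : lid f) := Subtype.ext x.2.symm
    conv_lhs => rw [this, map_smul, Submodule.coe_smul]
    rfl
  obtain ⟨a, ha⟩ : ∃ a : E, a = (φ ⟨e, he⟩ : lid f) := ⟨_, rfl⟩
  obtain ⟨b, hb⟩ : ∃ b : E, b = (ψ ⟨f, hf⟩ : lid e) := ⟨_, rfl⟩
  have hab : a * b = e := by
    rw [ha, hb, ← keyψ, hψφ]
  have af : a * f = a := by rw [ha]; exact (φ ⟨e, he⟩).2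
  have ea : e * a = a := by
    have := keyφ ⟨e, he⟩
    rw [← ha] at this
    exact this.symm
  have be : b * e = b := by rw [hb]; exact (ψ ⟨f, hf⟩).2
  have fb : f * b = b := by
    have := keyψ ⟨f, hf⟩
    rw [← hb] at this
    exact this.symm
  have hgg : (b * a) * (b * a) = b * a := by
    calc (b * a) * (b * a) = b * (a * b) * a := by simp only [mul_assoc]
      _ = b * a := by rw [hab, be]
  have hne : b * a ≠ f := by
    intro h
    -- then `φ` is surjective
    have hsurj : ∀ y : lid f, φ (ψ y) = y := by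
      intro y
      apply Subtype.ext
      rw [keyφ, keyψ, ← ha, ← hb, mul_assoc, h]
      exact y.2
    have h1 : ∀ z : Fin l → S, ι (r z) = z := by
      intro z
      have h2 := hsurj (β.symm z)
      have h3 : φ (ψ (β.symm z)) = β.symm (ι (α (α.symm (r (β (β.symm z)))))) := rfl
      rw [h3, LinearEquiv.apply_symm_apply, LinearEquiv.apply_symm_apply] at h2
      exact β.symm.injective h2
    obtain ⟨s, hs⟩ := exists_ne (0 : S)
    have h2 := congrFun (h1 (fun _ => s)) ⟨k, hkl⟩
    apply hs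
    rw [← h2]
    simp [ι]
  rw [rkr_swap ρ hab rfl he hgg]
  refine rkr_lt ρ hρ hf hgg ?_ ?_ hne
  · rw [← mul_assoc, fb]
  · rw [mul_assoc, af]

/-- Idempotents whose central parts have the same ranks are equivalent. -/
theorem equiv_of_rank [IsSemisimpleRing E] (hρ : Function.Injective ρ) {e f : E} (he : e * e = e)
    (hf : f * f = f)
    (h : ∀ π : E, π * π = π → (∀ a, a * π = π * a) → rkr ρ (π * e) = rkr ρ (π * f)) :
    ∃ a b : E, a * b = e ∧ b * a = f := by
  have hS : ∀ S : Submodule E E, IsSimpleModule E S → tS S e = tS S f := by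
    intro S hS
    have hnt : Nontrivial S := IsSimpleModule.nontrivial E S
    obtain ⟨π, hπ, hc, hmem⟩ := exists_central S
    have hidem : ∀ g : E, g * g = g → (π * g) * (π * g) = π * g := by
      intro g hg
      calc (π * g) * (π * g) = π * (g * π) * g := by simp only [mul_assoc]
        _ = (π * π) * (g * g) := by rw [hc g]; simp only [mul_assoc]
        _ = π * g := by rw [hπ, hg]
    have hiso : ∀ g : E, g * g = g → ∃ k : ℕ, Nonempty (lid (π * g) ≃ₗ[E] (Fin k → S)) := by
      intro g _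
      have hle : lid (π * g) ≤ isotypicComponent E E S := by
        intro x hx
        have hx' : x * (π * g) = x := hx
        rw [hmem]
        conv_rhs => rw [← hx']
        conv_lhs => rw [← hx']
        rw [← mul_assoc x, hc x, ← mul_assoc π, ← mul_assoc π, hπ]
      have h1 : IsIsotypicOfType E (lid (π * g)) S :=
        IsIsotypicOfType.of_injective (IsIsotypicOfType.isotypicComponent E E S)
          (Submodule.inclusion hle) (Submodule.inclusion_injective hle)
      exact h1.linearEquiv_fun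
    have hval : ∀ g : E, tS S (π * g) = tS S g := by
      intro g
      show LinearMap.trace ℚ S (Algebra.lsmul ℚ ℚ S (π * g)) =
        LinearMap.trace ℚ S (Algebra.lsmul ℚ ℚ S g)
      congr 1
      ext s
      have hs : π * (g * (s : E)) = g * (s : E) := (hmem _).1
        ((isotypicComponent E E S).smul_mem g (S.le_isotypicComponent s.2))
      show (π * g) * (s : E) = g * (s : E)
      rw [mul_assoc, hs]
    obtain ⟨k, ⟨α⟩⟩ := hiso e he
    obtain ⟨l, ⟨β⟩⟩ := hiso f hf
    have hr := h π hπ hc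
    rcases lt_trichotomy k l with hkl | hkl | hkl
    · exact absurd hr (rank_lt ρ hρ (hidem e he) (hidem f hf) hkl α β).ne
    · subst hkl
      rw [← hval e, ← hval f, ← hom_lid S (hidem e he), ← hom_lid S (hidem f hf),
        hom_congr (α.trans β.symm)]
    · exact absurd hr (rank_lt ρ hρ (hidem f hf) (hidem e he) hkl β α).ne'
  obtain ⟨φ⟩ := mod_equiv (E := E) (finrank ℚ (lid e)) (lid e) (lid f) le_rfl (fun S hSS => by
    have := (hom_lid S he).trans ((hS S hSS).trans (hom_lid S hf).symm)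
    exact_mod_cast this)
  have key : ∀ x : lid e, ((φ x : lid f) : E) = (x : E) * (φ ⟨e, he⟩ : lid f) := by
    intro x
    have : x = (x : E) • (⟨e, he⟩ : lid e) := Subtype.ext x.2.symm
    conv_lhs => rw [this, map_smul, Submodule.coe_smul]
    rfl
  have key2 : ∀ x : lid f, ((φ.symm x : lid e) : E) = (x : E) * (φ.symm ⟨f, hf⟩ : lid e) := by
    intro x
    have : x = (x : E) • (⟨f, hf⟩ : lid f) := Subtype.ext x.2.symm
    conv_lhs => rw [this, map_smul, Submodule.coe_smul]
    rfl
  refine ⟨(φ ⟨e, he⟩ : lid f), (φ.symm ⟨f, hf⟩ : lid e), ?_, ?_⟩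
  · rw [← key2, φ.symm_apply_apply]
  · rw [← key, φ.apply_symm_apply]

end rank

end Pool.Agent.U233.DU
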