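import Pool.Agent.R929.DH.Main
import Pool.Agent.U233.DU.Mid

/-!
# Comparison of the ranks
-/

open scoped ComplexConjugate
open Module

namespace Pool.Agent.U233.DU

open Pool.Agent.W539.DI Pool.Agent.R929.DH
open Pool.Agent.U233.DT (rank_nullity G1 G2 semi_rank pair_rank)

variable {n : ℕ} {X : KRing n} {L : X.R} {S : Part X L}

/-- the sum of the pieces with `k` in `s` -/
def Part.F (S : Part X L) (a b : ℤ) (s : Finset ℤ) : Submodule ℂ X.R := ⨆ k ∈ s, S.G (a + k, b + k)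

theorem F_le_F (a b : ℤ) (s : Finset ℤ) : S.F a b s ≤ X.F a b s :=
  iSup₂_mono fun _ _ => S.le _

theorem SF_le (a b : ℤ) (s : Finset ℤ) : S.F a b s ≤ ⨆ k : ℤ, S.G (a + k, b + k) :=
  iSup₂_le fun k _ => le_iSup (fun k : ℤ => S.G (a + k, b + k)) k

theorem SG_le (a b : ℤ) : S.G (a, b) ≤ ⨆ k : ℤ, S.G (a + k, b + k) := by
  have := le_iSup (fun k : ℤ => S.G (a + k, b + k)) 0
  simpa using this

theorem finrank_map_F (hm : L ∈ X.H (1, 1)) (κ : ℕ) (a b : ℤ) (s : Finset ℤ) :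
    finrank ℂ ((S.F a b s).map (ml X (L ^ κ))) = ∑ k ∈ s, rk S κ (a + k) (b + k) := by
  have e : (S.F a b s).map (ml X (L ^ κ)) =
      ⨆ k ∈ s, (S.G (a + k, b + k)).map (ml X (L ^ κ)) := by
    unfold Part.F
    simp only [Submodule.map_iSup]
  rw [e]
  refine finrank_iSup_finset _ ?_ s
  refine (X.indep (a + κ) (b + κ)).mono fun k => ?_
  rintro _ ⟨x, hx, rfl⟩
  exact mem_H (X.pow_mul_mem hm κ (S.le _ hx)) (by ring) (by ring)

theorem rk_sup (hm : L ∈ X.H (1, 1)) (κ : ℕ) {a b : ℤ} (N : ℕ) {W : Submodule ℂ X.R}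
    (hW : W ≤ S.G (a, b)) :
    finrank ℂ ((S.F a b (sp N) ⊔ W).map (ml X (L ^ κ))) =
      ∑ k ∈ sp N, rk S κ (a + k) (b + k) + finrank ℂ (W.map (ml X (L ^ κ))) := by
  rw [Submodule.map_sup, ← finrank_map_F hm]
  have h1 : W.map (ml X (L ^ κ)) ≤ X.H (a + κ, b + κ) := by
    rintro _ ⟨x, hx, rfl⟩
    exact X.pow_mul_mem hm κ (S.le _ (hW hx))
  have h2 : (S.F a b (sp N)).map (ml X (L ^ κ)) ≤ X.F (a + κ) (b + κ) (sp N) := by
    rw [Submodule.map_le_iff_le_comap]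
    refine iSup₂_le fun k hk x hx => ?_
    exact X.mem_F hk (mem_H (X.pow_mul_mem hm κ (S.le _ hx)) (by ring) (by ring))
  have h3 := disj_F h1 N
  have h4 := Submodule.finrank_sup_add_finrank_inf_eq ((S.F a b (sp N)).map (ml X (L ^ κ)))
    (W.map (ml X (L ^ κ)))
  have h5 : (S.F a b (sp N)).map (ml X (L ^ κ)) ⊓ W.map (ml X (L ^ κ)) = ⊥ :=
    eq_bot_iff.2 ((inf_le_inf_right _ h2).trans h3.le)
  rw [h5, finrank_bot, add_zero] at h4
  exact h4

/-- A finite set of integers which contains all relevant degrees. -/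
def bd (n : ℕ) (a b : ℤ) : ℕ := n + a.natAbs + b.natAbs + 1

theorem iSup_eq_F (S : Part X L) (p q : ℤ) (s : Finset ℤ)
    (hs : ∀ k, k ∉ s → p + k < 0 ∨ q + k < 0 ∨ (n : ℤ) < p + k ∨ (n : ℤ) < q + k) :
    (⨆ k : ℤ, S.G (p + k, q + k)) = S.F p q s := by
  apply le_antisymm
  · refine iSup_le fun k => ?_
    by_cases hk : k ∈ s
    · exact le_iSup₂ (f := fun k (_ : k ∈ s) => S.G (p + k, q + k)) k hk
    · have : S.G (p + k, q + k) = ⊥ := by
        have hk' := hs k hk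
        rw [eq_bot_iff]
        refine (S.le _).trans ?_
        by_cases h1 : p + k < 0 ∨ q + k < 0
        · exact (X.van _ _ h1).le
        · exact (X.van_top (by omega)).le
      rw [this]
      exact bot_le
  · exact iSup₂_le fun k _ => le_iSup (fun k : ℤ => S.G (p + k, q + k)) k

theorem finrank_map_iSup (hm : L ∈ X.H (1, 1)) (κ : ℕ) (a b : ℤ) :
    finrank ℂ ((⨆ k : ℤ, S.G (a + k, b + k)).map (ml X (L ^ κ))) =
      ∑ k ∈ sm (bd n a b) ∪ ({0} ∪ sp (bd n a b)), rk S κ (a + k) (b + k) := by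
  rw [iSup_eq_F S a b (sm (bd n a b) ∪ ({0} ∪ sp (bd n a b))) ?_, finrank_map_F hm]
  intro k hk
  rw [Finset.mem_union, Finset.mem_union, Finset.mem_singleton, mem_sp, mem_sm] at hk
  unfold bd at hk
  omega

theorem sum_split (N : ℕ) (g : ℤ → ℕ) :
    ∑ k ∈ sm N ∪ ({0} ∪ sp N), g k = ∑ k ∈ sp N, g (-k) + (g 0 + ∑ k ∈ sp N, g k) := by
  rw [Finset.sum_union, Finset.sum_union, Finset.sum_singleton]
  · congr 1
    rw [sum_sm, sum_sp]
  · rw [Finset.disjoint_left]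
    intro k hk hk2
    rw [Finset.mem_singleton] at hk
    rw [mem_sp] at hk2
    omega
  · rw [Finset.disjoint_left]
    intro k hk hk2
    rw [mem_sm] at hk
    rw [Finset.mem_union, Finset.mem_singleton, mem_sp] at hk2
    omega

theorem hf_sum_left (κ : ℕ) (s : Finset ℤ) (g : ℤ → X.R) (y : X.R) :
    hf X L κ (∑ k ∈ s, g k) y = ∑ k ∈ s, hf X L κ (g k) y := by
  induction s using Finset.cons_induction with
  | empty =>
    have := hf_smul_left (X := X) (w := L) (k := κ) 0 0 y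
    simpa using this
  | cons a s ha ih => rw [Finset.sum_cons, Finset.sum_cons, hf_add_left, ih]

theorem hf_sum_right (κ : ℕ) (s : Finset ℤ) (g : ℤ → X.R) (y : X.R) :
    hf X L κ y (∑ k ∈ s, g k) = ∑ k ∈ s, hf X L κ y (g k) := by
  induction s using Finset.cons_induction with
  | empty =>
    have := hf_smul_right (X := X) (w := L) (k := κ) 0 y 0
    simpa using this
  | cons a s ha ih => rw [Finset.sum_cons, Finset.sum_cons, hf_add_right, ih]

/-- The radical. -/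
theorem rad (hm : L ∈ X.H (1, 1)) (hb : X.bar L = L) {a b : ℤ} {κ : ℕ} (hab : a + b + κ = n)
    {x : X.R} (hx : x ∈ ⨆ k : ℤ, S.G (a + k, b + k))
    (h : ∀ y ∈ ⨆ k : ℤ, S.G (a + k, b + k), bf X L κ x y = 0) : L ^ κ * x = 0 := by
  classical
  rw [Submodule.mem_iSup_iff_exists_finsupp] at hx
  obtain ⟨f, hf1, hfx⟩ := hx
  rw [← hfx, Finsupp.sum, Finset.mul_sum]
  refine Finset.sum_eq_zero fun k0 hk0 => ?_
  have h1 : ∀ y ∈ S.G (a - k0, b - k0), (hf X L κ (f k0) y).re = 0 := by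
    intro y hy
    have hyT : y ∈ ⨆ k : ℤ, S.G (a + k, b + k) :=
      Submodule.mem_iSup_of_mem (-k0) (mem_G hy (by ring) (by ring))
    have h2 := h y hyT
    unfold bf at h2
    rw [← hfx, Finsupp.sum, hf_sum_left, hf_sum_right, Finset.sum_eq_single k0,
      Finset.sum_eq_single k0] at h2
    · rw [hf_conj (X := X) hm hb (S.le _ (hf1 k0)) (S.le _ hy), Complex.conj_re] at h2
      linarith
    · intro k _ hk
      exact hf_zero hm (S.le _ hy) (S.le _ (hf1 k)) (by omega)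
    · intro hk
      exact absurd hk0 hk
    · intro k _ hk
      exact hf_zero hm (S.le _ (hf1 k)) (S.le _ hy) (by omega)
    · intro hk
      exact absurd hk0 hk
  have h4 : ∀ y ∈ S.G (a - k0, b - k0), hf X L κ (f k0) y = 0 := by
    intro y hy
    have h5 := h1 (Complex.I • y) (Submodule.smul_mem _ _ hy)
    rw [hf_smul_right, Complex.conj_I] at h5
    refine Complex.ext (h1 y hy) ?_
    simp only [Complex.mul_re, Complex.neg_re, Complex.I_re, Complex.neg_im, Complex.I_im] at h5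
    simp only [Complex.zero_im]
    linarith
  refine S.pd (a + k0 + κ) (b + k0 + κ) _ (Lpow_mem κ (hf1 k0)) fun u hu => ?_
  have hu' : u ∈ S.G (b - k0, a - k0) := mem_G hu (by omega) (by omega)
  have h6 := h4 (X.bar u) (S.bar _ _ _ hu')
  rw [hf_hom hm (S.le _ (hf1 k0)), X.bar_bar] at h6
  rw [mul_assoc]
  exact (mul_eq_zero.mp h6).resolve_left (zpow_ne_zero _ Complex.I_ne_zero)

variable {Y : KRing n} {Φ : FM X Y} {L' : Y.R} {S' : Part Y L'}

/-- The transform exchanges the parts. -/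
def Compat (Φ : FM X Y) (S : Part X L) (S' : Part Y L') : Prop :=
  ∀ a b : ℤ, Submodule.map (Φ.φ : X.R →ₗ[ℂ] Y.R) (⨆ k : ℤ, S.G (a + k, b + k)) =
    ⨆ k : ℤ, S'.G (a + k, b + k)

theorem Compat.inv (h : Compat Φ S S') : Compat (symm Φ) S' S := by
  intro a b
  rw [← h a b, ← Submodule.map_comp]
  have e : (((symm Φ).φ : Y.R →ₗ[ℂ] X.R) ∘ₗ (Φ.φ : X.R →ₗ[ℂ] Y.R)) = LinearMap.id := by
    ext x
    show Φ.φ.symm (Φ.φ x) = x
    simp
  rw [e, Submodule.map_id]


theorem finrank_map_Φ (hΦ : Intertwines Φ L L') (κ : ℕ) (A : Submodule ℂ X.R) :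
    finrank ℂ ((A.map (Φ.φ : X.R →ₗ[ℂ] Y.R)).map (ml Y (L' ^ κ))) =
      finrank ℂ (A.map (ml X (L ^ κ))) := by
  have e : (A.map (Φ.φ : X.R →ₗ[ℂ] Y.R)).map (ml Y (L' ^ κ)) =
      (A.map (ml X (L ^ κ))).map (Φ.φ : X.R →ₗ[ℂ] Y.R) := by
    rw [← Submodule.map_comp, ← Submodule.map_comp]
    congr 1
    ext x
    exact (hΦ.pow κ x).symm
  rw [e, LinearEquiv.finrank_map_eq]

theorem total (hS : Compat Φ S S') (hX : L ∈ X.H (1, 1)) (hY : L' ∈ Y.H (1, 1))
    (hΦ : Intertwines Φ L L') (κ : ℕ)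
    (a b : ℤ) :
    ∑ k ∈ sm (bd n a b) ∪ ({0} ∪ sp (bd n a b)), rk S κ (a + k) (b + k) =
      ∑ k ∈ sm (bd n a b) ∪ ({0} ∪ sp (bd n a b)), rk S' κ (a + k) (b + k) := by
  rw [← finrank_map_iSup hX, ← finrank_map_iSup hY, ← hS a b, finrank_map_Φ hΦ]

/-- the sum of the ranks in the upper part -/
noncomputable def up (S : Part X L) (κ : ℕ) (a b : ℤ) : ℕ :=
  ∑ k ∈ sp (bd n a b), rk S κ (a + k) (b + k)

theorem total_up (hL : RelHR S) {κ : ℕ} {a b : ℤ} (hab : a + b + κ = n) :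
    finrank ℂ ((⨆ k : ℤ, S.G (a + k, b + k)).map (ml X (L ^ κ))) =
      2 * up S κ a b + rk S κ a b := by
  rw [finrank_map_iSup hL.mem, sum_split (bd n a b) (fun k => rk S κ (a + k) (b + k))]
  have h1 : ∑ k ∈ sp (bd n a b), rk S κ (a + -k) (b + -k) = up S κ a b :=
    Finset.sum_congr rfl fun k _ => rk_dual hL.mem hL.real (by omega) (by omega)
  rw [h1, add_zero, add_zero]
  unfold up
  ring

theorem comp_true (hS : Compat Φ S S') (hX : RelHR S) (hY : RelHR S') (hc : Intertwines Φ X.c Y.c)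
    (hΦ : Intertwines Φ L L') {a b : ℤ} {κ : ℕ} (hab : a + b + κ = n) {f : ℕ} (hf : a < f) :
    up S κ a b + pm S true f κ a b ≤ up S' κ a b + pm S' true f κ a b := by
  obtain ⟨W₁, -, c1, -, pos, -, d1, -⟩ := exists_W hX f a b κ hab hf
  obtain ⟨-, W₂, -, c2, -, neg, -, d2⟩ := exists_W hY f a b κ hab hf
  have h1 := semi_rank (isHerm (X := Y) (w := L') (k := κ) (sg a b)) (ml Y (L' ^ κ))
    (⨆ k : ℤ, S'.G (a + k, b + k))
    ((S.F a b (sp (bd n a b)) ⊔ W₁).map (Φ.φ : X.R →ₗ[ℂ] Y.R)) (S'.F a b (sp (bd n a b)) ⊔ W₂)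
    (by
      rw [← hS a b]
      exact Submodule.map_mono (sup_le (SF_le a b _) (c1.trans (SG_le a b))))
    (sup_le (SF_le a b _) (c2.trans (SG_le a b)))
    (by
      rintro _ ⟨x, hx, rfl⟩
      obtain ⟨f, hf1, m, hm, rfl⟩ := Submodule.mem_sup.1 hx
      show 0 ≤ sg a b * bf Y L' κ (Φ.φ (f + m)) (Φ.φ (f + m))
      rw [bf_iso hc hΦ, (bf_sup hX.mem hab _ (F_le_F _ _ _ hf1) (S.le _ (c1 hm))).1]
      exact pos m hm)
    (by
      intro x hx
      obtain ⟨f, hf1, m, hm, rfl⟩ := Submodule.mem_sup.1 hx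
      rw [(bf_sup hY.mem hab _ (F_le_F _ _ _ hf1) (S'.le _ (c2 hm))).1]
      exact neg m hm)
    (by
      intro x hx y
      have hx' : L' ^ κ * x = 0 := hx
      unfold bf
      rw [hf_ker_left hY.mem hx', hf_ker_right hY.real hx']
      simp)
    (by
      intro x hx hxy
      exact rad hY.mem hY.real hab hx fun y hy =>
        (mul_eq_zero.mp (hxy y hy)).resolve_left (sg_ne a b))
  rw [finrank_map_Φ hΦ, rk_sup hX.mem _ _ c1, rk_sup hY.mem _ _ c2, total_up hY hab] at h1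
  have h2 := pm_sum hY f a b κ hab hf
  have h1' : up S κ a b + finrank ℂ (W₁.map (ml X (L ^ κ))) +
      (up S' κ a b + finrank ℂ (W₂.map (ml Y (L' ^ κ)))) ≤
        2 * up S' κ a b + rk S' κ a b := h1
  omega

theorem comp_false (hS : Compat Φ S S') (hX : RelHR S) (hY : RelHR S') (hc : Intertwines Φ X.c Y.c)
    (hΦ : Intertwines Φ L L') {a b : ℤ} {κ : ℕ} (hab : a + b + κ = n) {f : ℕ} (hf : a < f) :
    up S κ a b + pm S false f κ a b ≤ up S' κ a b + pm S' false f κ a b := by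
  obtain ⟨-, W₂, -, c2, -, neg, -, d2⟩ := exists_W hX f a b κ hab hf
  obtain ⟨W₁, -, c1, -, pos, -, d1, -⟩ := exists_W hY f a b κ hab hf
  have h1 := semi_rank (isHerm (X := Y) (w := L') (k := κ) (sg a b)) (ml Y (L' ^ κ))
    (⨆ k : ℤ, S'.G (a + k, b + k)) (S'.F a b (sp (bd n a b)) ⊔ W₁)
    ((S.F a b (sp (bd n a b)) ⊔ W₂).map (Φ.φ : X.R →ₗ[ℂ] Y.R))
    (sup_le (SF_le a b _) (c1.trans (SG_le a b)))
    (by
      rw [← hS a b]
      exact Submodule.map_mono (sup_le (SF_le a b _) (c2.trans (SG_le a b))))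
    (by
      intro x hx
      obtain ⟨f, hf1, m, hm, rfl⟩ := Submodule.mem_sup.1 hx
      rw [(bf_sup hY.mem hab _ (F_le_F _ _ _ hf1) (S'.le _ (c1 hm))).1]
      exact pos m hm)
    (by
      rintro _ ⟨x, hx, rfl⟩
      obtain ⟨f, hf1, m, hm, rfl⟩ := Submodule.mem_sup.1 hx
      show sg a b * bf Y L' κ (Φ.φ (f + m)) (Φ.φ (f + m)) ≤ 0
      rw [bf_iso hc hΦ, (bf_sup hX.mem hab _ (F_le_F _ _ _ hf1) (S.le _ (c2 hm))).1]
      exact neg m hm)
    (by
      intro x hx y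
      have hx' : L' ^ κ * x = 0 := hx
      unfold bf
      rw [hf_ker_left hY.mem hx', hf_ker_right hY.real hx']
      simp)
    (by
      intro x hx hxy
      exact rad hY.mem hY.real hab hx fun y hy =>
        (mul_eq_zero.mp (hxy y hy)).resolve_left (sg_ne a b))
  rw [finrank_map_Φ hΦ, rk_sup hX.mem _ _ c2, rk_sup hY.mem _ _ c1, total_up hY hab] at h1
  have h2 := pm_sum hY f a b κ hab hf
  have h1' : up S' κ a b + finrank ℂ (W₁.map (ml Y (L' ^ κ))) +
      (up S κ a b + finrank ℂ (W₂.map (ml X (L ^ κ)))) ≤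
        2 * up S' κ a b + rk S' κ a b := h1
  omega

/-- The difference is an invariant. -/
theorem comp (hS : Compat Φ S S') (hX : RelHR S) (hY : RelHR S') (hc : Intertwines Φ X.c Y.c)
    (hΦ : Intertwines Φ L L') {a b : ℤ} {κ : ℕ} (hab : a + b + κ = n) {f : ℕ} (hf : a < f) :
    pm S true f κ a b - pm S false f κ a b =
      pm S' true f κ a b - pm S' false f κ a b := by
  have h1 := comp_true hS hX hY hc hΦ hab hf
  have h2 := comp_true (Φ := symm Φ) hS.inv hY hX hc.symm hΦ.symm hab hf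
  have h3 := comp_false hS hX hY hc hΦ hab hf
  have h4 := comp_false (Φ := symm Φ) hS.inv hY hX hc.symm hΦ.symm hab hf
  omega

end Pool.Agent.U233.DU
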