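import Pool.Agent.U233.DT.Defs

/-!
# Parts of the cohomology: definitions
-/

namespace Pool.Agent.U233.DU

open Pool.Agent.W539.DI

variable {n : ℕ}

/-- A graded part of the cohomology of `X`, stable under the multiplications by `L` and by the Kähler
class, under complex conjugation, and satisfying Poincaré duality. -/
structure Part (X : KRing n) (L : X.R) where
  G : ℤ × ℤ → Submodule ℂ X.R
  le : ∀ i, G i ≤ X.H i
  mulL : ∀ (p q : ℤ) (x : X.R), x ∈ G (p, q) → L * x ∈ G (p + 1, q + 1)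
  mulω : ∀ (p q : ℤ) (x : X.R), x ∈ G (p, q) → X.ω * x ∈ G (p + 1, q + 1)
  bar : ∀ (p q : ℤ) (x : X.R), x ∈ G (p, q) → X.bar x ∈ G (q, p)
  pd : ∀ (p q : ℤ) (x : X.R), x ∈ G (p, q) → (∀ y ∈ G (n - p, n - q), X.tr (x * y) = 0) → x = 0

variable {X : KRing n} {L : X.R}

/-- The dimension of the part of type `(p, q)`. -/
noncomputable def Part.h (S : Part X L) (p q : ℤ) : ℕ := Module.finrank ℂ (S.G (p, q))

/-- The classes of type `(p, q)` killed by `L ^ (κ + 1)`. -/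
def KK (S : Part X L) (κ : ℕ) (p q : ℤ) : Submodule ℂ X.R :=
  S.G (p, q) ⊓ LinearMap.ker (LinearMap.mulLeft ℂ (L ^ (κ + 1)))

/-- The classes `y + L z` of type `(p, q)` with `L ^ κ y = 0` and `L ^ (κ + 2) z = 0`. -/
def TT (S : Part X L) (κ : ℕ) (p q : ℤ) : Submodule ℂ X.R :=
  S.G (p, q) ⊓ LinearMap.ker (LinearMap.mulLeft ℂ (L ^ κ)) ⊔
    (S.G (p - 1, q - 1) ⊓ LinearMap.ker (LinearMap.mulLeft ℂ (L ^ (κ + 2)))).map
      (LinearMap.mulLeft ℂ L)

/-- The dimension of `KK / TT`. -/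
noncomputable def prim (S : Part X L) (κ : ℕ) (p q : ℤ) : ℕ :=
  Module.finrank ℂ (KK S κ p q) - Module.finrank ℂ (TT S κ p q)

/-- The relative Hodge-Riemann bilinear relations. -/
structure RelHR (S : Part X L) : Prop where
  mem : L ∈ X.H (1, 1)
  real : X.bar L = L
  rel : ∀ (p q : ℤ) (i κ : ℕ), p + q + 2 * i + κ = n → ∀ x ∈ KK S κ p q, x ∉ TT S κ p q →
    X.ω ^ (2 * i + 1) * x ∈ TT S κ (p + (2 * i + 1)) (q + (2 * i + 1)) →
    ∃ r : ℝ, 0 < r ∧ Complex.I ^ (p - q) * (-1 : ℂ) ^ ((p + q) * (p + q - 1) / 2) *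
      X.tr (L ^ κ * (X.ω ^ (2 * i) * (x * X.bar x))) = (r : ℂ)

end Pool.Agent.U233.DU
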