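import Pool.Agent.U233.DU.Gen

/-!
# Rational Hodge structures of relative Fourier-Mukai partners
-/

set_option autoImplicit false

open scoped ComplexConjugate
open Module Pool.Agent.W539.DI

namespace Pool.Agent.U233.DU

open Pool.Agent.R941.OH Pool.Agent.R929.DH
open Pool.Agent.U233.DT (Defect)

variable {n : ℕ} {X Y : KRing n}

section main

variable (r : RatStr X) (t : RatStr Y) (Φ : FM X Y)
  (h1 : RatOp r t (Φ.φ : X.R →ₗ[ℂ] Y.R)) (h2 : RatOp t r (Φ.φ.symm : Y.R →ₗ[ℂ] X.R))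

include h1 h2

theorem final {L : X.R} {L' : Y.R} (rL : r.IsRat L) (hX : DT.RelHR X L) (hY : DT.RelHR Y L')
    (hc : Intertwines Φ X.c Y.c) (hL : Intertwines Φ L L') (hlow : LowIso r t L L') (m : ℕ) :
    HStr.HodgeIso r t m := by
  classical
  obtain ⟨A, hA⟩ := exists_actX r
  obtain ⟨B, hB⟩ := exists_actY r t Φ h1 h2
  have hΦ : ∀ a x, Φ.φ (A.ρ a x) = B.ρ a (Φ.φ x) := by
    intro a x
    rw [hA, hB, rhoY_apply, LinearEquiv.symm_apply_apply]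
  have _ := A.semisimple
  obtain ⟨ℓ, hℓ₀⟩ := exists_EHS r (ratOp_mu r rL) (typeOp_mu hX.mem)
  have hℓ : A.ρ ℓ = mu X L := by rw [hA]; exact hℓ₀
  have hℓ' : B.ρ ℓ = mu Y L' := by
    ext y
    rw [hB, rhoY_apply, hℓ₀]
    show Φ.φ (L * Φ.φ.symm y) = L' * y
    rw [hL, LinearEquiv.apply_symm_apply]
  have hbar : ∀ a x, X.bar (A.ρ a x) = A.ρ a (X.bar x) := by
    intro a x
    rw [hA]
    exact bar_op r (rhoX_rat r a) x
  have hbar' : ∀ a y, Y.bar (B.ρ a y) = B.ρ a (Y.bar y) := by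
    intro a y
    rw [hB]
    exact bar_op t (rhoY_rat r t Φ h1 h2 a) y
  obtain ⟨a, b, hab, hba⟩ := gen A B Φ hΦ ℓ hℓ hℓ' hbar hbar' hX hY hc hL (fun κ m' hm' => by
    obtain ⟨u, v, hu, hu', hv, hv', huv⟩ := hlow κ m' hm'
    obtain ⟨b, hb⟩ := exists_EHS r (a := (Φ.φ.symm : Y.R →ₗ[ℂ] X.R) ∘ₗ u)
      (ratOp_comp r h2 hu) (typeOp_comp (typeOp_symm Φ) hu')
    obtain ⟨a, ha⟩ := exists_EHS r (a := v ∘ₗ (Φ.φ : X.R →ₗ[ℂ] Y.R))
      (ratOp_comp r hv h1) (typeOp_comp hv' (typeOp_phi Φ))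
    refine ⟨u, v, ⟨b, fun x => ?_⟩, ⟨a, fun y => ?_⟩, huv⟩
    · rw [hA, hb]
      simp
    · rw [hA, ha]
      simp) m
  refine HStr.iso_of_same ⟨(Φ.φ : X.R →ₗ[ℂ] Y.R) ∘ₗ rhoX r b,
    rhoX r a ∘ₗ (Φ.φ.symm : Y.R →ₗ[ℂ] X.R),
    ratOp_comp r h1 (rhoX_rat r b), typeOp_comp (typeOp_phi Φ) (rhoX_type r b),
    ratOp_comp t (rhoX_rat r a) h2, typeOp_comp (rhoX_type r a) (typeOp_symm Φ), ?_, ?_⟩
  · rw [← A.rho_pD, hA, ← hab, map_mul]
    ext x
    simp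
  · rw [← B.rho_pD, hB, ← hba, map_mul]
    ext y
    rw [Module.End.mul_apply, rhoY_apply, rhoY_apply, LinearEquiv.symm_apply_apply]
    simp

end main

theorem lowIso_two (r : RatStr X) (t : RatStr Y) {L : X.R} {L' : Y.R} (hX : L ∈ X.H (1, 1))
    (hY : L' ∈ Y.H (1, 1)) (dX : Defect X L 2) (dY : Defect Y L' 2) : LowIso r t L L' := by
  intro κ m hm
  exact ⟨0, 0, fun x _ => rat_zero t, fun p q x _ => Submodule.zero_mem _, fun x _ => rat_zero r,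
    fun p q x _ => Submodule.zero_mem _, fun p q hpq =>
      match_two hX hY (map_zero _) (map_zero _) dX dY (by omega)⟩

theorem lowIso_three (r : RatStr X) (t : RatStr Y) {L : X.R} {L' : Y.R} (hX : L ∈ X.H (1, 1))
    (hY : L' ∈ Y.H (1, 1)) (dX : Defect X L 3) (dY : Defect Y L' 3) (h : BaseIso r t L L') :
    LowIso r t L L' := by
  intro κ m hm
  obtain ⟨u, v, u1, u2, v1, v2, huv⟩ := h
  exact ⟨u, v, u1, u2, v1, v2, fun p q hpq =>
    match_three hX hY (map_zero _) (map_zero _) dX dY (by omega) (huv κ p q)⟩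

theorem hodge {r : RatStr X} {t : RatStr Y} {L : X.R} {L' : Y.R} {Φ : FM X Y}
    (h : Partners r t L L' Φ) :
    (LowIso r t L L' → ∀ m, HStr.HodgeIso r t m) ∧
    (Defect X L 3 → Defect Y L' 3 → BaseIso r t L L' → ∀ m, HStr.HodgeIso r t m) ∧
    (Defect X L 2 → Defect Y L' 2 → ∀ m, HStr.HodgeIso r t m) := by
  have key : LowIso r t L L' → ∀ m, HStr.HodgeIso r t m := fun hl =>
    final r t Φ h.rat h.rat' h.ratL h.hX h.hY h.c h.l hl
  exact ⟨key, fun dX dY hb => key (lowIso_three r t h.hX.mem h.hY.mem dX dY hb),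
    fun dX dY => key (lowIso_two r t h.hX.mem h.hY.mem dX dY)⟩

end Pool.Agent.U233.DU
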