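import Pool.Agent.U233.DT.Defs
import Pool.Agent.N174.OC.Pub

/-!
# Relative Fourier-Mukai partners: definitions
-/

set_option autoImplicit false

open CategoryTheory Pool.Agent.W539.DI

universe u v

namespace Pool.Agent.U233.DU

open Pool.Agent.R941.OH Pool.Agent.R929.DH Pool.Agent.N174.OC
open Pool.Agent.U233.DT (Defect)

section hodge

variable {n : ℕ} {X Y : KRing n}

/-- The maps `u` and `v` restrict to maps between the classes `KK` of type `(p, q)` killed by
`L ^ (κ + 1)` and between the classes `TT`, and are inverse to each other on `KK` modulo `TT`. -/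
structure Match (L : X.R) (L' : Y.R) (u : X.R → Y.R) (v : Y.R → X.R) (κ : ℕ) (p q : ℤ) :
    Prop where
  mapK : ∀ x ∈ DT.KK X L κ p q, u x ∈ DT.KK Y L' κ p q
  inv : ∀ x ∈ DT.KK X L κ p q, v (u x) - x ∈ DT.TT X L κ p q
  mapT : ∀ x ∈ DT.TT X L κ p q, u x ∈ DT.TT Y L' κ p q
  mapK' : ∀ y ∈ DT.KK Y L' κ p q, v y ∈ DT.KK X L κ p q
  inv' : ∀ y ∈ DT.KK Y L' κ p q, u (v y) - y ∈ DT.TT Y L' κ p q
  mapT' : ∀ y ∈ DT.TT Y L' κ p q, v y ∈ DT.TT X L κ p q

/-- The maps `u` and `v` restrict to inverse bijections between the classes of type `(p, q)` killed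
by `L ^ (κ + 1)` and by `L' ^ (κ + 1)`. -/
structure Match₀ (L : X.R) (L' : Y.R) (u : X.R → Y.R) (v : Y.R → X.R) (κ : ℕ) (p q : ℤ) :
    Prop where
  map : ∀ x ∈ DT.KK X L κ p q, u x ∈ DT.KK Y L' κ p q
  inv : ∀ x ∈ DT.KK X L κ p q, v (u x) = x
  map' : ∀ y ∈ DT.KK Y L' κ p q, v y ∈ DT.KK X L κ p q
  inv' : ∀ y ∈ DT.KK Y L' κ p q, u (v y) = y

/-- The rational Hodge structures `KK / TT` of `X` and `Y` of weight `m` are isomorphic for all `κ`
and `m` with `m + κ + 3 ≤ n`, that is, the Hodge structures on the primitive parts of the cohomology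
of the perverse sheaves `pH^u` with `u ≤ - 3`: there are linear maps `u` and `v` preserving rational
classes and the difference `p - q` of the types, which map `KK` to `KK` and `TT` to `TT` and are
inverse to each other modulo `TT`. -/
def LowIso (r : RatStr X) (t : RatStr Y) (L : X.R) (L' : Y.R) : Prop :=
  ∀ (κ m : ℕ), m + κ + 3 ≤ n → ∃ (u : X.R →ₗ[ℂ] Y.R) (v : Y.R →ₗ[ℂ] X.R),
    RatOp r t u ∧ TypeOp u ∧ RatOp t r v ∧ TypeOp v ∧
      ∀ p q : ℤ, p + q = m → Match L L' u v κ p q

/-- The lowest pieces, for defect of semismallness three: linear maps `u` and `v` which preserve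
rational classes and the difference `p - q` of the types, and restrict to inverse bijections
between the classes of type `(p, q)` killed by `L ^ (κ + 1)` for `p + q + κ + 3 = n`. -/
def BaseIso (r : RatStr X) (t : RatStr Y) (L : X.R) (L' : Y.R) : Prop :=
  ∃ (u : X.R →ₗ[ℂ] Y.R) (v : Y.R →ₗ[ℂ] X.R),
    RatOp r t u ∧ TypeOp u ∧ RatOp t r v ∧ TypeOp v ∧
      ∀ (κ : ℕ) (p q : ℤ), p + q + κ + 3 = n → Match₀ L L' u v κ p q

/-- The map `Φ` on cohomology, with the properties of the one defined by an equivalence of derived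
categories which is compatible with `L` and `L'`, and the relative Hodge-Riemann relations. -/
structure Partners (r : RatStr X) (t : RatStr Y) (L : X.R) (L' : Y.R) (Φ : FM X Y) : Prop where
  rat : RatOp r t (Φ.φ : X.R →ₗ[ℂ] Y.R)
  rat' : RatOp t r (Φ.φ.symm : Y.R →ₗ[ℂ] X.R)
  /-- the equivalence commutes with the Serre functors -/
  c : Intertwines Φ X.c Y.c
  /-- the equivalence is compatible with `L` and `L'` -/
  l : Intertwines Φ L L'
  ratL : r.IsRat L
  hX : DT.RelHR X L
  hY : DT.RelHR Y L'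

end hodge

section motive

variable {𝒪 : Type u} [Category.{v} 𝒪] [Preadditive 𝒪] [Linear ℚ 𝒪] {n : ℕ}

/-- The pieces `KK / TT` of the cohomology of `X` and `Y` of weight `m` are isomorphic by algebraic
correspondences for all `κ` and `m` with `m + κ + 3 ≤ n`. -/
def LowAlg (T : CycTheory 𝒪 n) {X Y : 𝒪} (L : (T.K X).R) (L' : (T.K Y).R) : Prop :=
  ∀ (κ m : ℕ), m + κ + 3 ≤ n → ∃ (u : X ⟶ Y) (v : Y ⟶ X), ∀ p q : ℤ, p + q = m →
    Match L L' (T.act u) (T.act v) κ p q

/-- The lowest pieces, for defect of semismallness three: algebraic correspondences `u` and `v`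
which restrict to inverse bijections between the classes of type `(p, q)` killed by `L ^ (κ + 1)`
for `p + q + κ + 3 = n`. -/
def BaseAlg (T : CycTheory 𝒪 n) {X Y : 𝒪} (L : (T.K X).R) (L' : (T.K Y).R) : Prop :=
  ∃ (u : X ⟶ Y) (v : Y ⟶ X), ∀ (κ : ℕ) (p q : ℤ), p + q + κ + 3 = n →
    Match₀ L L' (T.act u) (T.act v) κ p q

/-- The derived pair `v`, `w` is compatible with the Serre functors and with `L` and `L'`; `L` is
algebraic, the standard conjecture of Lefschetz type holds for `X`, and the relative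
Hodge-Riemann relations hold for `L` and `L'`. -/
structure MPartners (T : CycTheory 𝒪 n) {X Y : 𝒪} (v : X ⟶ Y) (w : Y ⟶ X) (L : (T.K X).R)
    (L' : (T.K Y).R) : Prop where
  pair : T.IsDerivedPair v w
  /-- the equivalence commutes with the Serre functors -/
  c : ∀ x, T.act v ((T.K X).c * x) = (T.K Y).c * T.act v x
  /-- the equivalence is compatible with `L` and `L'` -/
  l : ∀ x, T.act v (L * x) = L' * T.act v x
  algL : ∃ Γ : X ⟶ X, ∀ x, T.act Γ x = L * x
  lef : T.ConjB X
  hX : DT.RelHR (T.K X) L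
  hY : DT.RelHR (T.K Y) L'

/-- The homological motives of `X` and `Y` are isomorphic, and if homologically trivial
self-correspondences of `X` or of `Y` are nilpotent then the Chow motives are isomorphic. -/
def Orlov (T : CycTheory 𝒪 n) (X Y : 𝒪) : Prop :=
  T.HomIso X Y ∧ (T.HomNilpotent X ∨ T.HomNilpotent Y → T.ChowIso X Y)

end motive

end Pool.Agent.U233.DU
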