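import Pool.Agent.U233.DU.Glue
import Pool.Agent.U233.DU.Stmt

/-!
# The isotypic inertia relations: all parts together
-/

set_option autoImplicit false

open scoped ComplexConjugate
open Module Pool.Agent.W539.DI

namespace Pool.Agent.U233.DU

open Pool.Agent.R941.OH Pool.Agent.R929.DH
open Pool.Agent.U233.DT (rank_nullity Defect)

variable {n : ℕ} {X Y : KRing n}

theorem quot_le {V W : Type*} [AddCommGroup V] [Module ℂ V] [FiniteDimensional ℂ V]
    [AddCommGroup W] [Module ℂ W] [FiniteDimensional ℂ W] (u : V →ₗ[ℂ] W) (v : W →ₗ[ℂ] V)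
    (A B : Submodule ℂ V) (A' B' : Submodule ℂ W) (hB' : B' ≤ A') (h1 : ∀ x ∈ A, u x ∈ A')
    (h2 : ∀ y ∈ B', v y ∈ B) (h3 : ∀ x ∈ A, v (u x) - x ∈ B) :
    finrank ℂ A + finrank ℂ B' ≤ finrank ℂ A' + finrank ℂ B := by
  have e1 := rank_nullity (B'.mkQ ∘ₗ u) A
  have e2 := rank_nullity B'.mkQ A'
  rw [Submodule.ker_mkQ, inf_eq_right.2 hB'] at e2
  rw [LinearMap.ker_comp, Submodule.ker_mkQ, Submodule.map_comp] at e1
  have e3 : finrank ℂ ((A.map u).map B'.mkQ) ≤ finrank ℂ (A'.map B'.mkQ) := by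
    refine Submodule.finrank_mono (Submodule.map_mono ?_)
    rintro _ ⟨x, hx, rfl⟩
    exact h1 x hx
  have e4 : finrank ℂ (A ⊓ B'.comap u : Submodule ℂ V) ≤ finrank ℂ B := by
    refine Submodule.finrank_mono ?_
    rintro x ⟨hx, hx2⟩
    have h4 := B.sub_mem (h2 _ hx2) (h3 x hx)
    rwa [sub_sub_cancel] at h4
  omega

theorem match_of_zero {L : X.R} {L' : Y.R} {u : X.R → Y.R} {v : Y.R → X.R} {κ : ℕ} {p q : ℤ}
    (hL : L ∈ X.H (1, 1)) (hL' : L' ∈ Y.H (1, 1)) (hu : u 0 = 0) (hv : v 0 = 0)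
    (z1 : ∀ x ∈ DT.KK X L κ p q, x = 0) (z2 : ∀ y ∈ DT.KK Y L' κ p q, y = 0) :
    Match L L' u v κ p q where
  mapK x hx := by rw [z1 x hx, hu]; exact Submodule.zero_mem _
  inv x hx := by rw [z1 x hx, hu, hv, sub_zero]; exact Submodule.zero_mem _
  mapT x hx := by rw [z1 x (DT.TT_le_KK hL κ p q hx), hu]; exact Submodule.zero_mem _
  mapK' x hx := by rw [z2 x hx, hv]; exact Submodule.zero_mem _
  inv' x hx := by rw [z2 x hx, hv, hu, sub_zero]; exact Submodule.zero_mem _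
  mapT' x hx := by rw [z2 x (DT.TT_le_KK hL' κ p q hx), hv]; exact Submodule.zero_mem _

theorem match_two {L : X.R} {L' : Y.R} {u : X.R → Y.R} {v : Y.R → X.R} {κ : ℕ} {p q : ℤ}
    (hL : L ∈ X.H (1, 1)) (hL' : L' ∈ Y.H (1, 1)) (hu : u 0 = 0) (hv : v 0 = 0)
    (dX : Defect X L 2) (dY : Defect Y L' 2) (h : p + q + κ + 3 ≤ n) :
    Match L L' u v κ p q := by
  refine match_of_zero hL hL' hu hv (fun x hx => ?_) (fun x hx => ?_)
  · obtain ⟨e1, e2⟩ := DT.mem_KK.1 hx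
    exact dX.inj (by push_cast; omega) e1 e2
  · obtain ⟨e1, e2⟩ := DT.mem_KK.1 hx
    exact dY.inj (by push_cast; omega) e1 e2

theorem match_three {L : X.R} {L' : Y.R} {u : X.R → Y.R} {v : Y.R → X.R} {κ : ℕ} {p q : ℤ}
    (hL : L ∈ X.H (1, 1)) (hL' : L' ∈ Y.H (1, 1)) (hu : u 0 = 0) (hv : v 0 = 0)
    (dX : Defect X L 3) (dY : Defect Y L' 3) (h : p + q + κ + 3 ≤ n)
    (hb : p + q + κ + 3 = n → Match₀ L L' u v κ p q) : Match L L' u v κ p q := by
  rcases eq_or_lt_of_le h with h' | h'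
  · have t1 : ∀ x ∈ DT.TT X L κ p q, x = 0 := by
      intro x hx
      obtain ⟨y, ⟨hy, hy2⟩, z, ⟨hz, hz2⟩, rfl⟩ := DT.mem_TT.1 hx
      rw [dX.inj (by push_cast; omega) hy hy2, dX.inj (by push_cast; omega) hz hz2]
      simp
    have t2 : ∀ x ∈ DT.TT Y L' κ p q, x = 0 := by
      intro x hx
      obtain ⟨y, ⟨hy, hy2⟩, z, ⟨hz, hz2⟩, rfl⟩ := DT.mem_TT.1 hx
      rw [dY.inj (by push_cast; omega) hy hy2, dY.inj (by push_cast; omega) hz hz2]
      simp
    obtain ⟨k1, k2, k3, k4⟩ := hb h'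
    exact ⟨k1, fun x hx => by rw [k2 x hx, sub_self]; exact Submodule.zero_mem _,
      fun x hx => by rw [t1 x hx, hu]; exact Submodule.zero_mem _, k3,
      fun x hx => by rw [k4 x hx, sub_self]; exact Submodule.zero_mem _,
      fun x hx => by rw [t2 x hx, hv]; exact Submodule.zero_mem _⟩
  · refine match_of_zero hL hL' hu hv (fun x hx => ?_) (fun x hx => ?_)
    · obtain ⟨e1, e2⟩ := DT.mem_KK.1 hx
      exact dX.inj (by push_cast; omega) e1 e2
    · obtain ⟨e1, e2⟩ := DT.mem_KK.1 hx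
      exact dY.inj (by push_cast; omega) e1 e2

section gen

variable {E : Type} [Ring E] [Algebra ℚ E] [FiniteDimensional ℚ E] [IsSemisimpleRing E]
  (A : Act E X) (B : Act E Y) (Φ : FM X Y)

/-- Suppose that the pieces of low perversity are isomorphic by operators in `E`. Then the
projections to the cohomology of degree `m` are conjugate. -/
theorem gen {L : X.R} {L' : Y.R} (hΦ : ∀ a x, Φ.φ (A.ρ a x) = B.ρ a (Φ.φ x)) (ℓ : E)
    (hℓ : A.ρ ℓ = mu X L) (hℓ' : B.ρ ℓ = mu Y L')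
    (hbar : ∀ a x, X.bar (A.ρ a x) = A.ρ a (X.bar x))
    (hbar' : ∀ a x, Y.bar (B.ρ a x) = B.ρ a (Y.bar x))
    (hX : DT.RelHR X L) (hY : DT.RelHR Y L')
    (hc : Intertwines Φ X.c Y.c) (hL : Intertwines Φ L L')
    (hlow : ∀ (κ m : ℕ), m + κ + 3 ≤ n → ∃ (u : X.R →ₗ[ℂ] Y.R) (v : Y.R →ₗ[ℂ] X.R),
      (∃ b : E, ∀ x, u x = Φ.φ (A.ρ b x)) ∧ (∃ a : E, ∀ y, v y = A.ρ a (Φ.φ.symm y)) ∧
      ∀ p q : ℤ, p + q = m → Match L L' u v κ p q) (m : ℕ) :
    ∃ a b : E, a * b = A.L.pD (fun k => k = m) ∧ b * a = B.L.pD (fun k => k = m) := by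
  classical
  have hrank : ∀ π : E, π * π = π → (∀ a, a * π = π * a) →
      rkr A.ρ (π * A.L.pD (fun k => k = m)) = rkr A.ρ (π * B.L.pD (fun k => k = m)) := by
    intro π hπ hcc
    have hS := compat A B (hL := hX.mem) (hL' := hY.mem) (hℓ := hℓ) (hℓ' := hℓ') (hbar := hbar)
      (hbar' := hbar') (hπ := hπ) (hc := hcc) Φ hΦ
    have hlow' : ∀ (p q : ℤ) (κ : ℕ), p + q + κ + 3 ≤ n →
        prim (cpart A hX.mem ℓ hℓ hbar π hπ hcc) κ p q =
          prim (cpart B hY.mem ℓ hℓ' hbar' π hπ hcc) κ p q := by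
      intro p q κ h
      by_cases hpq : p + q < 0
      · have key : ∀ (Z : KRing n) (M : Z.R) (S : Part Z M), prim S κ p q = 0 := by
          intro Z M S
          have e : KK S κ p q = ⊥ := by
            rw [eq_bot_iff, ← Z.van p q (by omega)]
            exact inf_le_left.trans (S.le _)
          unfold prim
          rw [e, finrank_bot]
          simp
        rw [key, key]
      obtain ⟨m', hm'⟩ : ∃ m' : ℕ, p + q = m' := ⟨(p + q).toNat, by omega⟩
      obtain ⟨u, v, ⟨b, e1⟩, ⟨a, e2⟩, huv⟩ := hlow κ m' (by omega)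
      obtain ⟨k1, k2, k3, k4, k5, k6⟩ := huv p q hm'
      have cu : ∀ x, A.ρ π x = x → B.ρ π (u x) = u x := by
        intro x hx
        rw [e1, ← hΦ, ← Module.End.mul_apply, ← map_mul, ← hcc, map_mul, Module.End.mul_apply, hx]
      have cv : ∀ y, B.ρ π y = y → A.ρ π (v y) = v y := by
        intro y hy
        have e3 : A.ρ π (Φ.φ.symm y) = Φ.φ.symm y := by
          apply Φ.φ.injective
          rw [hΦ, LinearEquiv.apply_symm_apply, hy]
        rw [e2, ← Module.End.mul_apply, ← map_mul, ← hcc, map_mul, Module.End.mul_apply, e3]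
      have q1 := quot_le u v (KK (cpart A hX.mem ℓ hℓ hbar π hπ hcc) κ p q)
        (TT (cpart A hX.mem ℓ hℓ hbar π hπ hcc) κ p q)
        (KK (cpart B hY.mem ℓ hℓ' hbar' π hπ hcc) κ p q)
        (TT (cpart B hY.mem ℓ hℓ' hbar' π hπ hcc) κ p q) (TT_le_KK hY.mem _ _ _)
        (fun x hx => by
          obtain ⟨x1, x2⟩ := (KK_cpart A).1 hx
          exact (KK_cpart B).2 ⟨k1 x x1, cu x x2⟩)
        (fun y hy => by
          obtain ⟨y1, y2⟩ := (TT_cpart B).1 hy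
          exact (TT_cpart A).2 ⟨k6 y y1, cv y y2⟩)
        (fun x hx => by
          obtain ⟨x1, x2⟩ := (KK_cpart A).1 hx
          exact (TT_cpart A).2 ⟨k2 x x1, by rw [map_sub, cv _ (cu x x2), x2]⟩)
      have q2 := quot_le v u (KK (cpart B hY.mem ℓ hℓ' hbar' π hπ hcc) κ p q)
        (TT (cpart B hY.mem ℓ hℓ' hbar' π hπ hcc) κ p q)
        (KK (cpart A hX.mem ℓ hℓ hbar π hπ hcc) κ p q)
        (TT (cpart A hX.mem ℓ hℓ hbar π hπ hcc) κ p q) (TT_le_KK hX.mem _ _ _)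
        (fun y hy => by
          obtain ⟨y1, y2⟩ := (KK_cpart B).1 hy
          exact (KK_cpart A).2 ⟨k4 y y1, cv y y2⟩)
        (fun x hx => by
          obtain ⟨x1, x2⟩ := (TT_cpart A).1 hx
          exact (TT_cpart B).2 ⟨k3 x x1, cu x x2⟩)
        (fun y hy => by
          obtain ⟨y1, y2⟩ := (KK_cpart B).1 hy
          exact (TT_cpart B).2 ⟨k5 y y1, by rw [map_sub, cu _ (cv y y2), y2]⟩)
      have q3 := Submodule.finrank_mono
        (TT_le_KK (S := cpart A hX.mem ℓ hℓ hbar π hπ hcc) hX.mem κ p q)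
      have q4 := Submodule.finrank_mono
        (TT_le_KK (S := cpart B hY.mem ℓ hℓ' hbar' π hπ hcc) hY.mem κ p q)
      unfold prim
      omega
    have hm := (main hS (relHR_cpart A hX) (relHR_cpart B hY) hc hL hlow').1
    rw [← rkr_eq A B Φ hΦ (π * B.L.pD (fun k => k = m)),
      rank_cpart A (hL := hX.mem) (hℓ := hℓ) (hbar := hbar) (hπ := hπ) (hc := hcc) m,
      rank_cpart B (hL := hY.mem) (hℓ := hℓ') (hbar := hbar') (hπ := hπ) (hc := hcc) m]
    exact Finset.sum_congr rfl fun p _ => hm p (m - p)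
  exact equiv_of_rank A.ρ A.inj (A.L.pD_self (fun k => k = m)) (B.L.pD_self (fun k => k = m)) hrank

end gen

end Pool.Agent.U233.DU
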