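import Pool.Agent.U233.DU.Star

/-!
# The parts defined by central idempotents
-/

set_option autoImplicit false

open scoped ComplexConjugate
open Module Pool.Agent.W539.DI

namespace Pool.Agent.U233.DU

open Pool.Agent.R941.OH Pool.Agent.R929.DH

section part

variable {E : Type} [Ring E] [Algebra ℚ E] {n : ℕ} {X : KRing n} (A : Act E X)

/-- central idempotents preserve the types -/
theorem central_mem {π : E} (hc : ∀ a, a * π = π * a) {p q : ℤ} {x : X.R} (hx : x ∈ X.H (p, q)) :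
    A.ρ π x ∈ X.H (p, q) := by
  classical
  by_cases hne : x = 0
  · rw [hne, map_zero]
    exact Submodule.zero_mem _
  have hr : ¬ (p < 0 ∨ q < 0 ∨ (n : ℤ) < p ∨ (n : ℤ) < q) := fun h => hne (zero_of X h hx)
  obtain ⟨m, hm⟩ : ∃ m : ℕ, p + q = m := ⟨(p + q).toNat, by omega⟩
  refine HStr.mem_of_proj hm (A.typ_mem π p q x hx) ?_
  have h1 : proj X (fun k => k = m) x = x := by rw [proj_of X _ hm hx, if_pos rfl]
  rw [← A.rho_pD, ← Module.End.mul_apply, ← map_mul, hc, map_mul, Module.End.mul_apply, A.rho_pD,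
    h1]

/-- The part of the cohomology defined by a central idempotent. -/
noncomputable def cpart [FiniteDimensional ℚ E] {L : X.R} (hL : L ∈ X.H (1, 1)) (ℓ : E)
    (hℓ : A.ρ ℓ = mu X L) (hbar : ∀ a x, X.bar (A.ρ a x) = A.ρ a (X.bar x)) (π : E)
    (hπ : π * π = π) (hc : ∀ a, a * π = π * a) : Part X L where
  G i := X.H i ⊓ LinearMap.eqLocus (A.ρ π) LinearMap.id
  le i := inf_le_left
  mulL p q x hx := by
    refine ⟨mem_H (X.mul_mem hL hx.1) (by ring) (by ring), ?_⟩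
    have h1 : A.ρ π x = x := hx.2
    show A.ρ π (L * x) = L * x
    have h2 : L * x = A.ρ ℓ x := by rw [hℓ]; rfl
    rw [h2, ← Module.End.mul_apply, ← map_mul, ← hc, map_mul, Module.End.mul_apply, h1]
  mulω p q x hx := by
    refine ⟨mem_H (X.mul_mem X.ω_mem hx.1) (by ring) (by ring), ?_⟩
    have h1 : A.ρ π x = x := hx.2
    show A.ρ π (X.ω * x) = X.ω * x
    have h3 : A.ρ A.L.o = mu X X.ω := congrArg (fun l : Lef (Module.End ℂ X.R) n => l.o) A.hL
    have h2 : X.ω * x = A.ρ A.L.o x := by rw [h3]; rfl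
    rw [h2, ← Module.End.mul_apply, ← map_mul, ← hc, map_mul, Module.End.mul_apply, h1]
  bar p q x hx := by
    refine ⟨X.bar_mem _ _ _ hx.1, ?_⟩
    have h1 : A.ρ π x = x := hx.2
    show A.ρ π (X.bar x) = X.bar x
    rw [← hbar, h1]
  pd p q x hx h := by
    refine X.pd p q x hx.1 fun y hy => ?_
    have h1 : A.ρ π x = x := hx.2
    have h2 : F X x (X.bar y) = F X x (X.bar (A.ρ π y)) := by
      conv_lhs => rw [← h1]
      rw [star_spec, star_central A hπ hc, hbar]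
    rw [F_of X hx.1, F_of X hx.1, X.bar_bar, X.bar_bar] at h2
    have h3 := mul_left_cancel₀ (zpow_ne_zero _ Complex.I_ne_zero) h2
    rw [h3]
    refine h _ ⟨central_mem A hc hy, ?_⟩
    show A.ρ π (A.ρ π y) = A.ρ π y
    rw [← Module.End.mul_apply, ← map_mul, hπ]

variable [FiniteDimensional ℚ E] {L : X.R} {hL : L ∈ X.H (1, 1)} {ℓ : E}
  {hℓ : A.ρ ℓ = mu X L} {hbar : ∀ a x, X.bar (A.ρ a x) = A.ρ a (X.bar x)} {π : E}
  {hπ : π * π = π} {hc : ∀ a, a * π = π * a}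

theorem mem_cpart {p q : ℤ} {x : X.R} :
    x ∈ (cpart A hL ℓ hℓ hbar π hπ hc).G (p, q) ↔ x ∈ X.H (p, q) ∧ A.ρ π x = x := Iff.rfl

theorem KK_cpart {κ : ℕ} {p q : ℤ} {x : X.R} :
    x ∈ KK (cpart A hL ℓ hℓ hbar π hπ hc) κ p q ↔ x ∈ Pool.Agent.U233.DT.KK X L κ p q ∧ A.ρ π x = x := by
  rw [mem_KK, Pool.Agent.U233.DT.mem_KK, mem_cpart]
  tauto

theorem TT_cpart {κ : ℕ} {p q : ℤ} {x : X.R} :
    x ∈ TT (cpart A hL ℓ hℓ hbar π hπ hc) κ p q ↔ x ∈ Pool.Agent.U233.DT.TT X L κ p q ∧ A.ρ π x = x := by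
  have hcomm : ∀ (j : ℕ) (x : X.R), A.ρ π (L ^ j * x) = L ^ j * A.ρ π x := by
    intro j x
    have h2 : ∀ x : X.R, L ^ j * x = A.ρ (ℓ ^ j) x := by
      intro x
      rw [map_pow, hℓ, mu_pow]
    rw [h2, h2, ← Module.End.mul_apply, ← Module.End.mul_apply, ← map_mul, ← map_mul, hc]
  constructor
  · intro hx
    obtain ⟨y, ⟨hy, hy2⟩, z, ⟨hz, hz2⟩, rfl⟩ := mem_TT.1 hx
    refine ⟨Pool.Agent.U233.DT.mem_TT.2 ⟨y, ⟨hy.1, hy2⟩, z, ⟨hz.1, hz2⟩, rfl⟩, ?_⟩
    have h1 : A.ρ π y = y := hy.2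
    have h2 : A.ρ π z = z := hz.2
    have h3 := hcomm 1 z
    rw [pow_one] at h3
    rw [map_add, h1, h3, h2]
  · rintro ⟨hx, h⟩
    obtain ⟨y, ⟨hy, hy2⟩, z, ⟨hz, hz2⟩, rfl⟩ := Pool.Agent.U233.DT.mem_TT.1 hx
    have hpp : ∀ x, A.ρ π (A.ρ π x) = A.ρ π x := fun x => by
      rw [← Module.End.mul_apply, ← map_mul, hπ]
    refine mem_TT.2 ⟨A.ρ π y, ⟨⟨central_mem A hc hy, hpp y⟩, ?_⟩, A.ρ π z,
      ⟨⟨central_mem A hc hz, hpp z⟩, ?_⟩, ?_⟩
    · rw [← hcomm, hy2, map_zero]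
    · rw [← hcomm, hz2, map_zero]
    · have h3 := hcomm 1 z
      rw [pow_one] at h3
      rw [← h3, ← map_add, h]

theorem relHR_cpart (h : Pool.Agent.U233.DT.RelHR X L) : RelHR (cpart A hL ℓ hℓ hbar π hπ hc) where
  mem := h.mem
  real := h.real
  rel p q i κ hn x hx hx2 hx3 := by
    obtain ⟨h1, h2⟩ := (KK_cpart A).1 hx
    exact h.rel p q i κ hn x h1 (fun h4 => hx2 ((TT_cpart A).2 ⟨h4, h2⟩)) ((TT_cpart A).1 hx3).1

/-- The rank of the projection to the classes of degree `m` of the part. -/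
theorem rank_cpart (m : ℕ) : rkr A.ρ (π * A.L.pD (fun k => k = m)) =
    ∑ p ∈ Finset.Icc (0 : ℤ) m, (cpart A hL ℓ hℓ hbar π hπ hc).h p (m - p) := by
  classical
  set S := cpart A hL ℓ hℓ hbar π hπ hc with hS
  have e : LinearMap.range (A.ρ (π * A.L.pD (fun k => k = m))) =
      ⨆ p ∈ Finset.Icc (0 : ℤ) m, S.G (p, m - p) := by
    apply le_antisymm
    · rintro _ ⟨x, rfl⟩
      rw [map_mul, Module.End.mul_apply, A.rho_pD]
      refine X.ind (P := fun x => A.ρ π (proj X (fun k => k = m) x) ∈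
        (⨆ p ∈ Finset.Icc (0 : ℤ) m, S.G (p, m - p))) ?_ ?_ ?_ x
      · rw [map_zero, map_zero]
        exact Submodule.zero_mem _
      · intro x y hx hy
        rw [map_add, map_add]
        exact Submodule.add_mem _ hx hy
      · intro p q x hx
        by_cases hne : x = 0
        · rw [hne, map_zero, map_zero]
          exact Submodule.zero_mem _
        have hr : ¬ (p < 0 ∨ q < 0 ∨ (n : ℤ) < p ∨ (n : ℤ) < q) := fun h => hne (zero_of X h hx)
        obtain ⟨m', hm⟩ : ∃ m' : ℕ, p + q = m' := ⟨(p + q).toNat, by omega⟩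
        rw [proj_of X _ hm hx]
        split_ifs with hmm
        · subst hmm
          refine (le_iSup₂ (f := fun p (_ : p ∈ Finset.Icc (0 : ℤ) m') => S.G (p, m' - p)) p ?_) ?_
          · rw [Finset.mem_Icc]
            omega
          · refine mem_G (S := S) ⟨central_mem A hc hx, ?_⟩ rfl (by omega)
            show A.ρ π (A.ρ π x) = A.ρ π x
            rw [← Module.End.mul_apply, ← map_mul, hπ]
        · rw [map_zero]
          exact Submodule.zero_mem _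
    · refine iSup₂_le fun p _ x hx => ⟨x, ?_⟩
      have h1 : A.ρ π x = x := hx.2
      rw [map_mul, Module.End.mul_apply, A.rho_pD,
        proj_of X _ (show p + (m - p) = (m : ℤ) by ring) hx.1, if_pos rfl, h1]
  unfold rkr
  rw [e]
  refine finrank_iSup_finset (fun p : ℤ => S.G (p, m - p)) ?_ _
  have h1 := (DirectSum.Decomposition.isInternal X.H).submodule_iSupIndep
  have h2 : iSupIndep (fun p : ℤ => X.H (p, m - p)) :=
    h1.comp (f := fun p : ℤ => ((p, m - p) : ℤ × ℤ)) (fun k l hkl => by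
      have := congrArg Prod.fst hkl
      simpa using this)
  exact h2.mono fun p => S.le _

end part

section two

variable {E : Type} [Ring E] [Algebra ℚ E] [FiniteDimensional ℚ E] {n : ℕ} {X Y : KRing n}
  (A : Act E X) (B : Act E Y) {L : X.R} {L' : Y.R} {hL : L ∈ X.H (1, 1)} {hL' : L' ∈ Y.H (1, 1)}
  {ℓ : E} {hℓ : A.ρ ℓ = mu X L} {hℓ' : B.ρ ℓ = mu Y L'}
  {hbar : ∀ a x, X.bar (A.ρ a x) = A.ρ a (X.bar x)}
  {hbar' : ∀ a x, Y.bar (B.ρ a x) = B.ρ a (Y.bar x)} {π : E}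
  {hπ : π * π = π} {hc : ∀ a, a * π = π * a} (Φ : FM X Y)

theorem compat (hΦ : ∀ a x, Φ.φ (A.ρ a x) = B.ρ a (Φ.φ x)) :
    Compat Φ (cpart A hL ℓ hℓ hbar π hπ hc) (cpart B hL' ℓ hℓ' hbar' π hπ hc) := by
  intro a b
  have key : ∀ (Z : KRing n) (C : Act E Z) (M : Z.R) (hM : M ∈ Z.H (1, 1)) (hℓ₀ : C.ρ ℓ = mu Z M)
      (hb : ∀ a x, Z.bar (C.ρ a x) = C.ρ a (Z.bar x)) (z : Z.R),
      (z ∈ ⨆ k : ℤ, (cpart C hM ℓ hℓ₀ hb π hπ hc).G (a + k, b + k)) ↔
        (z ∈ ⨆ k : ℤ, Z.H (a + k, b + k)) ∧ C.ρ π z = z := by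
    intro Z C M hM hℓ₀ hb z
    constructor
    · intro hz
      refine ⟨(iSup_mono fun k => (cpart C hM ℓ hℓ₀ hb π hπ hc).le _) hz, ?_⟩
      refine Submodule.iSup_induction (p := fun k : ℤ =>
        (cpart C hM ℓ hℓ₀ hb π hπ hc).G (a + k, b + k)) (motive := fun z => C.ρ π z = z) hz ?_ ?_ ?_
      · intro k x hx
        exact hx.2
      · rw [map_zero]
      · intro x y hx hy
        rw [map_add, hx, hy]
    · rintro ⟨hz, h⟩
      rw [← h]
      refine Submodule.iSup_induction (p := fun k : ℤ => Z.H (a + k, b + k))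
        (motive := fun z => C.ρ π z ∈
          (⨆ k : ℤ, (cpart C hM ℓ hℓ₀ hb π hπ hc).G (a + k, b + k) : Submodule ℂ Z.R)) hz ?_ ?_ ?_
      · intro k x hx
        refine Submodule.mem_iSup_of_mem k ⟨central_mem C hc hx, ?_⟩
        show C.ρ π (C.ρ π x) = C.ρ π x
        rw [← Module.End.mul_apply, ← map_mul, hπ]
      · rw [map_zero]
        exact Submodule.zero_mem _
      · intro x y hx hy
        rw [map_add]
        exact Submodule.add_mem _ hx hy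
  ext z
  rw [key Y B L' hL' hℓ' hbar']
  constructor
  · rintro ⟨x, hx, rfl⟩
    have hx' := (key X A L hL hℓ hbar x).1 hx
    refine ⟨?_, ?_⟩
    · rw [← Φ.hodge a b]
      exact ⟨x, hx'.1, rfl⟩
    · show B.ρ π (Φ.φ x) = Φ.φ x
      rw [← hΦ, hx'.2]
  · rintro ⟨hz, h⟩
    rw [← Φ.hodge a b] at hz
    obtain ⟨x, hx, rfl⟩ := hz
    refine ⟨x, (key X A L hL hℓ hbar x).2 ⟨hx, ?_⟩, rfl⟩
    apply Φ.φ.injective
    rw [hΦ]
    exact h

theorem rkr_eq (hΦ : ∀ a x, Φ.φ (A.ρ a x) = B.ρ a (Φ.φ x)) (a : E) :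
    rkr B.ρ a = rkr A.ρ a := by
  have e : LinearMap.range (B.ρ a) = (LinearMap.range (A.ρ a)).map (Φ.φ : X.R →ₗ[ℂ] Y.R) := by
    ext y
    constructor
    · rintro ⟨z, rfl⟩
      refine ⟨A.ρ a (Φ.φ.symm z), ⟨_, rfl⟩, ?_⟩
      show Φ.φ (A.ρ a (Φ.φ.symm z)) = B.ρ a z
      rw [hΦ, LinearEquiv.apply_symm_apply]
    · rintro ⟨_, ⟨x, rfl⟩, rfl⟩
      exact ⟨Φ.φ x, (hΦ a x).symm⟩
  unfold rkr
  rw [e, LinearEquiv.finrank_map_eq]

end two

end Pool.Agent.U233.DU
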