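import Pool.Agent.U233.DU.Rk

/-!
# Semidefinite subspaces
-/

open scoped ComplexConjugate
open Module

namespace Pool.Agent.U233.DU

open Pool.Agent.W539.DI Pool.Agent.R929.DH
open Pool.Agent.U233.DT (rank_nullity G1 G2 semi_rank pair_rank)

variable {n : ℕ} {X : KRing n} {L : X.R} {S : Part X L}

theorem dual_pow {w : X.R} (hw : w ∈ X.H (1, 1)) (j : ℕ) (x : X.R) :
    X.dual (w ^ j * x) = (-1 : ℂ) ^ j • (w ^ j * X.dual x) := by
  induction j with
  | zero => simp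
  | succ j ih =>
    rw [pow_succ', mul_assoc, dual_mul hw, ih, mul_smul_comm, ← mul_assoc, ← pow_succ', pow_succ',
      ← neg_one_smul ℂ, smul_smul]
    congr 1
    ring

theorem hf_ker_right (hb : X.bar L = L) {j : ℕ} {v : X.R} (hv : L ^ j * v = 0) (y : X.R) :
    hf X L j y v = 0 := by
  unfold hf
  rw [← bar_pow hb, hv, map_zero, mul_zero, map_zero]

theorem hf_ker_left (hm : L ∈ X.H (1, 1)) {j : ℕ} {v : X.R} (hv : L ^ j * v = 0) (y : X.R) :
    hf X L j v y = 0 := by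
  have h1 : L ^ j * X.dual v = 0 := by
    have h2 := dual_pow hm j v
    rw [hv, map_zero] at h2
    have h3 : (-1 : ℂ) ^ j ≠ 0 := pow_ne_zero _ (by norm_num)
    exact (smul_eq_zero.1 h2.symm).resolve_left h3
  unfold hf
  rw [← mul_assoc, ← pow_central hm, h1, zero_mul, map_zero]

/-- `TT` is orthogonal to the classes killed by `L ^ (κ + 1)`. -/
theorem orth_left (hm : L ∈ X.H (1, 1)) (hb : X.bar L = L) {κ : ℕ} {p q : ℤ} {t v : X.R}
    (ht : t ∈ TT S κ p q) (hv : L ^ (κ + 1) * v = 0) : hf X L κ t v = 0 := by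
  obtain ⟨y, ⟨-, hy2⟩, z, ⟨-, -⟩, rfl⟩ := mem_TT.1 ht
  rw [hf_add_left, hf_ker_left hm hy2, hf_succ_left hm, hf_ker_right hb hv]
  simp

theorem orth_right (hm : L ∈ X.H (1, 1)) (hb : X.bar L = L) {κ : ℕ} {p q : ℤ} {t v : X.R}
    (ht : t ∈ TT S κ p q) (hv : L ^ (κ + 1) * v = 0) : hf X L κ v t = 0 := by
  obtain ⟨y, ⟨-, hy2⟩, z, ⟨-, -⟩, rfl⟩ := mem_TT.1 ht
  rw [hf_add_right, hf_ker_right hb hy2, hf_succ_right hm hb, hf_ker_left hm hv]
  simp

theorem hf_ω (hm : L ∈ X.H (1, 1)) (κ : ℕ) (x y : X.R) :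
    hf X L κ (X.ω * x) y = -hf X L κ x (X.ω * y) := by
  rw [hf_mul_left X.ω_mem, hf_mul_right X.ω_mem X.ω_bar]

theorem hf_ωpow (hm : L ∈ X.H (1, 1)) (κ m : ℕ) (x y : X.R) :
    hf X L κ (X.ω ^ m * x) y = (-1 : ℂ) ^ m * hf X L κ x (X.ω ^ m * y) := by
  induction m generalizing x y with
  | zero => simp
  | succ m ih =>
    have e1 : X.ω ^ (m + 1) * x = X.ω * (X.ω ^ m * x) := by rw [pow_succ', mul_assoc]
    have e2 : X.ω ^ (m + 1) * y = X.ω ^ m * (X.ω * y) := by rw [pow_succ, mul_assoc]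
    rw [e1, e2, hf_ω hm, ih]
    ring

/-- The quadratic form `q_i`. -/
noncomputable def qf (_S : Part X L) (κ i : ℕ) (p q : ℤ) (x : X.R) : ℝ :=
  sg p q * (hf X L κ x (X.ω ^ (2 * i) * x)).re

theorem qf_TT (hL : RelHR S) {κ i : ℕ} {p q : ℤ} {t : X.R} (ht : t ∈ TT S κ p q) :
    qf S κ i p q t = 0 := by
  unfold qf
  have h1 := ω_KK hL.mem (2 * i) (TT_le_KK hL.mem κ p q ht)
  rw [orth_left hL.mem hL.real ht (mem_KK.1 h1).2]
  simp

theorem qf_rel (hL : RelHR S) {κ i : ℕ} {p q : ℤ} (hn : p + q + 2 * i + κ = n) {x : X.R}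
    (hx : x ∈ KK S κ p q) (ht : x ∉ TT S κ p q)
    (hp : X.ω ^ (2 * i + 1) * x ∈ TT S κ (p + (2 * i + 1)) (q + (2 * i + 1))) :
    0 < qf S κ i p q x := by
  obtain ⟨r, hr, he⟩ := hL.rel p q i κ hn x hx ht hp
  have h1 := hf_sign hL.mem (k := κ) (S.le _ (mem_KK.1 hx).1) (X.ω ^ (2 * i) * x)
  have e1 : x * X.bar (X.ω ^ (2 * i) * x) = X.ω ^ (2 * i) * (x * X.bar x) := by
    rw [bar_pow X.ω_bar, ← mul_assoc, ← pow_central X.ω_mem, mul_assoc]
  rw [e1, he] at h1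
  have h2 := congrArg Complex.re h1
  rw [Complex.ofReal_re, Complex.re_ofReal_mul] at h2
  unfold qf
  rw [← h2]
  exact hr

/-- A class of `KK` with image in `TT` under `ω ^ (2 i)` is in `TT`. -/
theorem hard (hL : RelHR S) {κ i : ℕ} {p q : ℤ} (hn : p + q + 2 * i + κ = n) {x : X.R}
    (hx : x ∈ KK S κ p q) (h : X.ω ^ (2 * i) * x ∈ TT S κ (p + 2 * i) (q + 2 * i)) :
    x ∈ TT S κ p q := by
  by_contra ht
  have h1 : X.ω ^ (2 * i + 1) * x ∈ TT S κ (p + (2 * i + 1)) (q + (2 * i + 1)) := by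
    have h2 := ω_TT hL.mem 1 h
    rw [← mul_assoc, ← pow_add, add_comm 1 (2 * i)] at h2
    exact TT_cast h2 (by push_cast; ring) (by push_cast; ring)
  have h3 := qf_rel hL hn hx ht h1
  unfold qf at h3
  rw [orth_right hL.mem hL.real h (mem_KK.1 hx).2] at h3
  simp at h3

/-- The coefficients. -/
noncomputable def cc (S : Part X L) (κ : ℕ) : Bool → ℕ → ℤ → ℤ → ℤ
  | _, 0, _, _ => 0
  | true, f + 1, p, q => bt S κ p q - bt S κ (p - 1) (q - 1) + cc S κ false f (p - 1) (q - 1)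
  | false, f + 1, p, q => cc S κ true f (p - 1) (q - 1)

theorem exists_V (hL : RelHR S) : ∀ (f : ℕ) (p q : ℤ) (i κ : ℕ), p + q + 2 * i + κ = n → p < f →
    ∃ V₁ V₂ : Submodule ℂ X.R, TT S κ p q ≤ V₁ ∧ V₁ ≤ KK S κ p q ∧
      TT S κ p q ≤ V₂ ∧ V₂ ≤ KK S κ p q ∧
      (∀ x ∈ V₁, 0 ≤ qf S κ i p q x) ∧ (∀ x ∈ V₂, qf S κ i p q x ≤ 0) ∧
      cc S κ true f p q + finrank ℂ (TT S κ p q) ≤ finrank ℂ V₁ ∧
      cc S κ false f p q + finrank ℂ (TT S κ p q) ≤ finrank ℂ V₂ := by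
  intro f
  induction f with
  | zero =>
    intro p q i κ hn hp
    refine ⟨TT S κ p q, TT S κ p q, le_rfl, TT_le_KK hL.mem κ p q, le_rfl,
      TT_le_KK hL.mem κ p q, fun x hx => (qf_TT hL hx).ge, fun x hx => (qf_TT hL hx).le, ?_, ?_⟩
    · simp [cc]
    · simp [cc]
  | succ f ih =>
    intro p q i κ hn hp
    obtain ⟨N₁, N₂, a1, a2, a3, a4, pos, neg, d1, d2⟩ := ih (p - 1) (q - 1) (i + 1) κ
      (by push_cast; omega) (by push_cast at hp; omega)
    have hm := hL.mem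
    have hb := hL.real
    let D : Submodule ℂ X.R := KK S κ p q ⊓
      (TT S κ (p + (2 * i + 1)) (q + (2 * i + 1))).comap (ml X (X.ω ^ (2 * i + 1)))
    have hD : ∀ x, x ∈ D ↔ x ∈ KK S κ p q ∧
        X.ω ^ (2 * i + 1) * x ∈ TT S κ (p + (2 * i + 1)) (q + (2 * i + 1)) := fun x => Iff.rfl
    have hTD : TT S κ p q ≤ D := by
      intro x hx
      refine (hD x).2 ⟨TT_le_KK hm κ p q hx, ?_⟩
      exact TT_cast (ω_TT hm (2 * i + 1) hx) (by push_cast; ring) (by push_cast; ring)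
    have hω1 : ∀ x ∈ KK S κ (p - 1) (q - 1), X.ω * x ∈ KK S κ p q := by
      intro x hx
      have := ω_KK hm 1 hx
      rw [pow_one] at this
      exact KK_cast this (by push_cast; ring) (by push_cast; ring)
    -- injectivity
    have hinj : ∀ x ∈ KK S κ (p - 1) (q - 1), X.ω * x ∈ D → x ∈ TT S κ (p - 1) (q - 1) := by
      intro x hx hx2
      have h1 := ((hD _).1 hx2).2
      rw [← mul_assoc, ← pow_succ] at h1
      refine hard hL (i := i + 1) (by push_cast; omega) hx ?_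
      rw [show 2 * (i + 1) = 2 * i + 1 + 1 by ring]
      exact TT_cast h1 (by push_cast; ring) (by push_cast; ring)
    -- values of the form
    have hval : ∀ d ∈ D, ∀ v ∈ KK S κ (p - 1) (q - 1),
        qf S κ i p q (X.ω * v + d) = qf S κ i p q d - qf S κ (i + 1) (p - 1) (q - 1) v := by
      intro d hd v hv
      obtain ⟨hd1, hd2⟩ := (hD d).1 hd
      have hv2 := (mem_KK.1 hv).2
      have c1 : hf X L κ d (X.ω ^ (2 * i) * (X.ω * v)) = 0 := by
        have h1 := hf_ωpow hm κ (2 * i + 1) d v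
        rw [orth_left hm hb hd2 hv2] at h1
        have h3 : (-1 : ℂ) ^ (2 * i + 1) ≠ 0 := pow_ne_zero _ (by norm_num)
        rw [← mul_assoc, ← pow_succ]
        exact (mul_eq_zero.1 h1.symm).resolve_left h3
      have c2 : hf X L κ (X.ω * v) (X.ω ^ (2 * i) * d) = 0 := by
        rw [hf_ω hm, ← mul_assoc, ← pow_succ', orth_right hm hb hd2 hv2, neg_zero]
      have c3 : hf X L κ (X.ω * v) (X.ω ^ (2 * i) * (X.ω * v)) =
          -hf X L κ v (X.ω ^ (2 * (i + 1)) * v) := by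
        rw [hf_ω hm]
        congr 2
        rw [show 2 * (i + 1) = 2 * i + 1 + 1 by ring, pow_succ', pow_succ]
        simp only [mul_assoc]
      unfold qf
      rw [mul_add, hf_add_left, hf_add_right, hf_add_right, c1, c2, c3, sg_pred]
      simp only [Complex.add_re, Complex.neg_re, Complex.zero_re]
      ring
    have hbt : bt S κ (p + (2 * i + 1)) (q + (2 * i + 1)) = bt S κ (p - 1) (q - 1) :=
      bt_dual hm hb (by omega) (by omega)
    have g1 := G1 (ml X (X.ω ^ (2 * i + 1))) (KK S κ p q)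
      (KK S κ (p + (2 * i + 1)) (q + (2 * i + 1)))
      (TT S κ (p + (2 * i + 1)) (q + (2 * i + 1))) (TT_le_KK hm _ _ _) (by
        rintro _ ⟨x, hx, rfl⟩
        exact KK_cast (ω_KK hm (2 * i + 1) hx) (by push_cast; ring) (by push_cast; ring))
    have g2 := G2 (ml X X.ω) N₂ D (TT S κ (p - 1) (q - 1))
      (fun x hx h => hinj x (a4 hx) h)
    have g3 := G2 (ml X X.ω) N₁ (TT S κ p q) (TT S κ (p - 1) (q - 1))
      (fun x hx h => hinj x (a2 hx) (hTD h))
    have b1 := bt_eq (S := S) hm κ p q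
    have b2 := bt_eq (S := S) hm κ (p + (2 * i + 1)) (q + (2 * i + 1))
    have g1' : finrank ℂ (KK S κ p q) +
        finrank ℂ (TT S κ (p + (2 * i + 1)) (q + (2 * i + 1))) ≤
        finrank ℂ D + finrank ℂ (KK S κ (p + (2 * i + 1)) (q + (2 * i + 1))) := g1
    refine ⟨N₂.map (ml X X.ω) ⊔ D, N₁.map (ml X X.ω) ⊔ TT S κ p q, hTD.trans le_sup_right, ?_,
      le_sup_right, ?_, ?_, ?_, ?_, ?_⟩
    · refine sup_le ?_ inf_le_left
      rintro _ ⟨x, hx, rfl⟩
      exact hω1 x (a4 hx)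
    · refine sup_le ?_ (TT_le_KK hm _ _ _)
      rintro _ ⟨x, hx, rfl⟩
      exact hω1 x (a2 hx)
    · intro x hx
      obtain ⟨_, ⟨v, hv, rfl⟩, d, hd, rfl⟩ := Submodule.mem_sup.1 hx
      show 0 ≤ qf S κ i p q (X.ω * v + d)
      rw [hval d hd v (a4 hv)]
      have h1 := neg v hv
      have h2 : 0 ≤ qf S κ i p q d := by
        by_cases ht : d ∈ TT S κ p q
        · exact (qf_TT hL ht).ge
        · exact (qf_rel hL hn ((hD d).1 hd).1 ht ((hD d).1 hd).2).le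
      linarith
    · intro x hx
      obtain ⟨_, ⟨v, hv, rfl⟩, d, hd, rfl⟩ := Submodule.mem_sup.1 hx
      show qf S κ i p q (X.ω * v + d) ≤ 0
      rw [hval d (hTD hd) v (a2 hv), qf_TT hL hd]
      have h1 := pos v hv
      linarith
    · show bt S κ p q - bt S κ (p - 1) (q - 1) + cc S κ false f (p - 1) (q - 1) +
        finrank ℂ (TT S κ p q) ≤ _
      omega
    · show cc S κ true f (p - 1) (q - 1) + finrank ℂ (TT S κ p q) ≤ _
      omega

end Pool.Agent.U233.DU
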