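import Pool.Agent.U233.DT.Main
import Pool.Agent.U233.DU.Comp

/-!
# The main theorem
-/

open scoped ComplexConjugate
open Module

namespace Pool.Agent.U233.DU

open Pool.Agent.W539.DI Pool.Agent.R929.DH
open Pool.Agent.U233.DT (rank_nullity G1 G2 semi_rank pair_rank Defect)

variable {n : ℕ} {X Y : KRing n} {L : X.R} {L' : Y.R} {Φ : FM X Y} {S : Part X L}
  {S' : Part Y L'}

theorem rk_big (hm : L ∈ X.H (1, 1)) {κ : ℕ} (h : n < κ) (p q : ℤ) : rk S κ p q = 0 := by
  have h1 := X.pow_mem hm κ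
  rw [X.van_top (by left; exact_mod_cast h), Submodule.mem_bot] at h1
  unfold rk
  have e : (S.G (p, q)).map (ml X (L ^ κ)) = ⊥ := by
    rw [eq_bot_iff]
    rintro _ ⟨x, -, rfl⟩
    refine (Submodule.mem_bot ℂ).2 ?_
    show L ^ κ * x = 0
    rw [h1, zero_mul]
  rw [e, finrank_bot]

theorem rk_zero (S : Part X L) (p q : ℤ) : rk S 0 p q = S.h p q := by
  unfold rk Part.h
  have e : (S.G (p, q)).map (ml X (L ^ 0)) = S.G (p, q) := by
    ext x
    constructor
    · rintro ⟨y, hy, rfl⟩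
      show L ^ 0 * y ∈ _
      rw [pow_zero, one_mul]
      exact hy
    · intro hx
      exact ⟨x, hx, by show L ^ 0 * x = x; rw [pow_zero, one_mul]⟩
  rw [e]

theorem cc_low {κ : ℕ}
    (hlow : ∀ (p q : ℤ), p + q + κ + 3 ≤ n → bt S κ p q = bt S' κ p q) :
    ∀ (f : ℕ) (e : Bool) (p q : ℤ), p + q + κ + 3 ≤ n →
      cc S κ e f p q = cc S' κ e f p q := by
  intro f
  induction f with
  | zero => intro e p q _; cases e <;> rfl
  | succ f ih =>
    intro e p q h
    cases e
    · exact ih true (p - 1) (q - 1) (by omega)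
    · show bt S κ p q - bt S κ (p - 1) (q - 1) + cc S κ false f (p - 1) (q - 1) =
        bt S' κ p q - bt S' κ (p - 1) (q - 1) + cc S' κ false f (p - 1) (q - 1)
      rw [hlow p q h, hlow (p - 1) (q - 1) (by omega), ih false (p - 1) (q - 1) (by omega)]

theorem step (hS : Compat Φ S S') (hX : RelHR S) (hY : RelHR S') (hc : Intertwines Φ X.c Y.c)
    (hΦ : Intertwines Φ L L') {κ : ℕ}
    (hlow : ∀ (p q : ℤ), p + q + κ + 3 ≤ n → bt S κ p q = bt S' κ p q)
    (hk1 : ∀ p q, rk S (κ + 1) p q = rk S' (κ + 1) p q)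
    (hk2 : ∀ p q, rk S (κ + 2) p q = rk S' (κ + 2) p q) (p q : ℤ) :
    rk S κ p q = rk S' κ p q := by
  classical
  have low : ∀ p q : ℤ, p + q + κ + 3 ≤ n → rk S κ p q = rk S' κ p q := by
    intro p q h
    have h1 := hlow p q h
    unfold bt at h1
    rw [hk1, hk1, hk2] at h1
    omega
  obtain ⟨t, ht | ht⟩ := Int.even_or_odd' (p + q + κ - n)
  · -- even case
    obtain ⟨a, ha⟩ : ∃ a, a = p - t := ⟨_, rfl⟩
    obtain ⟨b, hb⟩ : ∃ b, b = q - t := ⟨_, rfl⟩
    have hab : a + b + κ = n := by omega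
    have dX : ∀ k : ℤ, rk S κ (a + k) (b + k) = rk S κ (a - k) (b - k) := fun k =>
      rk_dual hX.mem hX.real (by omega) (by omega)
    have dY : ∀ k : ℤ, rk S' κ (a + k) (b + k) = rk S' κ (a - k) (b - k) := fun k =>
      rk_dual hY.mem hY.real (by omega) (by omega)
    have far : ∀ k : ℤ, 2 ≤ k → rk S κ (a + k) (b + k) = rk S' κ (a + k) (b + k) := by
      intro k hk
      rw [dX, dY]
      exact low _ _ (by omega)
    have h1 := total hS hX.mem hY.mem hΦ κ a b
    rw [← finrank_map_iSup hX.mem, ← finrank_map_iSup hY.mem, total_up hX hab,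
      total_up hY hab] at h1
    have h1mem : (1 : ℤ) ∈ sp (bd n a b) := by
      rw [mem_sp]
      unfold bd
      omega
    have hup : up S κ a b + rk S' κ (a + 1) (b + 1) =
        up S' κ a b + rk S κ (a + 1) (b + 1) := by
      unfold up
      rw [← Finset.add_sum_erase _ _ h1mem, ← Finset.add_sum_erase _ _ h1mem]
      have : ∑ k ∈ (sp (bd n a b)).erase 1, rk S κ (a + k) (b + k) =
          ∑ k ∈ (sp (bd n a b)).erase 1, rk S' κ (a + k) (b + k) := by
        refine Finset.sum_congr rfl fun k hk => far k ?_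
        rw [Finset.mem_erase, mem_sp] at hk
        omega
      rw [this]
      ring
    -- the signature
    obtain ⟨f, hf⟩ : ∃ f : ℕ, f = a.toNat := ⟨_, rfl⟩
    have haf : a < ((f + 2 : ℕ) : ℤ) := by
      push_cast
      omega
    have s1 := comp hS hX hY hc hΦ hab haf
    have s2 := comp hS hX hY hc hΦ (a := a - 1) (b := b - 1) (κ := κ + 2) (f := f + 1)
      (by push_cast; omega) (by push_cast; omega)
    have eT : ∀ {X₀ : KRing n} {L₀ : X₀.R} (Z : Part X₀ L₀), pm Z true (f + 2) κ a b =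
        pm Z false (f + 1) (κ + 2) (a - 1) (b - 1) +
          (bt Z κ a b - bt Z κ (a - 1) (b - 1) + cc Z κ true f (a - 1 - 1) (b - 1 - 1)) +
          rk Z (κ + 1) (a - 1) (b - 1) - rk Z (κ + 2) (a - 1) (b - 1) := fun Z => rfl
    have eF : ∀ {X₀ : KRing n} {L₀ : X₀.R} (Z : Part X₀ L₀), pm Z false (f + 2) κ a b =
        pm Z true (f + 1) (κ + 2) (a - 1) (b - 1) +
          (bt Z κ (a - 1) (b - 1) - bt Z κ (a - 1 - 1) (b - 1 - 1) +
            cc Z κ false f (a - 1 - 1) (b - 1 - 1)) +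
          rk Z (κ + 1) (a - 1) (b - 1) - rk Z (κ + 2) (a - 1) (b - 1) := fun Z => rfl
    rw [eT, eT, eF, eF, cc_low hlow f true _ _ (by omega), cc_low hlow f false _ _ (by omega),
      hlow (a - 1 - 1) (b - 1 - 1) (by omega)] at s1
    unfold bt at s1
    simp only [hk1, hk2] at s1
    have d1 := dX 1
    have d2 := dY 1
    have zero : rk S κ a b = rk S' κ a b ∧
        rk S κ (a - 1) (b - 1) = rk S' κ (a - 1) (b - 1) := by
      omega
    have ep : p = a + t := by omega
    have eq : q = b + t := by omega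
    rw [ep, eq]
    rcases lt_trichotomy t 0 with h0 | h0 | h0
    · rw [show a + t = a - (-t) by ring, show b + t = b - (-t) by ring, ← dX, ← dY]
      rcases eq_or_lt_of_le (show (1 : ℤ) ≤ -t by omega) with h | h
      · rw [← h, dX, dY]
        exact zero.2
      · exact far _ (by omega)
    · rw [h0, add_zero, add_zero]
      exact zero.1
    · rcases eq_or_lt_of_le (show (1 : ℤ) ≤ t by omega) with h | h
      · rw [← h, dX, dY]
        exact zero.2
      · exact far _ (by omega)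
  · -- odd case
    obtain ⟨a, ha⟩ : ∃ a, a = p - t - 1 := ⟨_, rfl⟩
    obtain ⟨b, hb⟩ : ∃ b, b = q - t - 1 := ⟨_, rfl⟩
    have hab : a + b + κ + 1 = n := by omega
    have dX : ∀ k : ℤ, rk S κ (a + k) (b + k) = rk S κ (a + (1 - k)) (b + (1 - k)) :=
      fun k => rk_dual hX.mem hX.real (by omega) (by omega)
    have dY : ∀ k : ℤ, rk S' κ (a + k) (b + k) = rk S' κ (a + (1 - k)) (b + (1 - k)) :=
      fun k => rk_dual hY.mem hY.real (by omega) (by omega)
    have neg : ∀ k : ℤ, k ≤ -1 → rk S κ (a + k) (b + k) = rk S' κ (a + k) (b + k) :=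
      fun k hk => low _ _ (by omega)
    have far : ∀ k : ℤ, 2 ≤ k → rk S κ (a + k) (b + k) = rk S' κ (a + k) (b + k) := by
      intro k hk
      rw [dX, dY]
      exact neg _ (by omega)
    have h1 := total hS hX.mem hY.mem hΦ κ a b
    rw [sum_split (bd n a b) (fun k => rk S κ (a + k) (b + k)),
      sum_split (bd n a b) (fun k => rk S' κ (a + k) (b + k))] at h1
    have h1mem : (1 : ℤ) ∈ sp (bd n a b) := by
      rw [mem_sp]
      unfold bd
      omega
    have e1 : ∑ k ∈ sp (bd n a b), rk S κ (a + -k) (b + -k) =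
        ∑ k ∈ sp (bd n a b), rk S' κ (a + -k) (b + -k) := by
      refine Finset.sum_congr rfl fun k hk => neg _ ?_
      rw [mem_sp] at hk
      omega
    have e2 : ∑ k ∈ (sp (bd n a b)).erase 1, rk S κ (a + k) (b + k) =
        ∑ k ∈ (sp (bd n a b)).erase 1, rk S' κ (a + k) (b + k) := by
      refine Finset.sum_congr rfl fun k hk => far k ?_
      rw [Finset.mem_erase, mem_sp] at hk
      omega
    have x1 : ∑ k ∈ sp (bd n a b), rk S κ (a + k) (b + k) = rk S κ (a + 1) (b + 1) +
        ∑ k ∈ (sp (bd n a b)).erase 1, rk S κ (a + k) (b + k) :=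
      (Finset.add_sum_erase _ (fun k => rk S κ (a + k) (b + k)) h1mem).symm
    have y1 : ∑ k ∈ sp (bd n a b), rk S' κ (a + k) (b + k) = rk S' κ (a + 1) (b + 1) +
        ∑ k ∈ (sp (bd n a b)).erase 1, rk S' κ (a + k) (b + k) :=
      (Finset.add_sum_erase _ (fun k => rk S' κ (a + k) (b + k)) h1mem).symm
    rw [e1, x1, y1, e2] at h1
    have d1 := dX 1
    have d2 := dY 1
    rw [sub_self] at d1 d2
    have zero : rk S κ (a + 0) (b + 0) = rk S' κ (a + 0) (b + 0) ∧
        rk S κ (a + 1) (b + 1) = rk S' κ (a + 1) (b + 1) := by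
      omega
    obtain ⟨s, hs⟩ : ∃ s, s = t + 1 := ⟨_, rfl⟩
    have ep : p = a + s := by omega
    have eq : q = b + s := by omega
    rw [ep, eq]
    rcases lt_trichotomy s 0 with h0 | h0 | h0
    · exact neg _ (by omega)
    · rw [h0]
      exact zero.1
    · rcases eq_or_lt_of_le (show (1 : ℤ) ≤ s by omega) with h | h
      · rw [← h]
        exact zero.2
      · exact far _ (by omega)

theorem rk_all (hS : Compat Φ S S') (hX : RelHR S) (hY : RelHR S') (hc : Intertwines Φ X.c Y.c)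
    (hΦ : Intertwines Φ L L')
    (hlow : ∀ (p q : ℤ) (κ : ℕ), p + q + κ + 3 ≤ n → prim S κ p q = prim S' κ p q) :
    ∀ (j κ : ℕ), n < κ + j → ∀ p q : ℤ, rk S κ p q = rk S' κ p q := by
  intro j
  induction j with
  | zero =>
    intro κ h p q
    rw [rk_big hX.mem (by omega), rk_big hY.mem (by omega)]
  | succ j ih =>
    intro κ h p q
    refine step hS hX hY hc hΦ (fun p q h => ?_) (ih (κ + 1) (by omega)) (ih (κ + 2) (by omega)) p q
    rw [bt_prim hX.mem, bt_prim hY.mem, hlow p q κ h]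

/-- **Main theorem.** -/
theorem main (hS : Compat Φ S S') (hX : RelHR S) (hY : RelHR S') (hc : Intertwines Φ X.c Y.c)
    (hΦ : Intertwines Φ L L')
    (hlow : ∀ (p q : ℤ) (κ : ℕ), p + q + κ + 3 ≤ n → prim S κ p q = prim S' κ p q) :
    (∀ p q : ℤ, S.h p q = S'.h p q) ∧
      ∀ (κ : ℕ) (p q : ℤ), prim S κ p q = prim S' κ p q := by
  have h := rk_all hS hX hY hc hΦ hlow
  refine ⟨fun p q => ?_, fun κ p q => ?_⟩
  · rw [← rk_zero S, ← rk_zero S']
    exact h (n + 1) 0 (by omega) p q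
  · have h1 := bt_prim (S := S) hX.mem κ p q
    have h2 := bt_prim (S := S') hY.mem κ p q
    have h3 : bt S κ p q = bt S' κ p q := by
      unfold bt
      rw [h (n + 1) κ (by omega), h (n + 1) (κ + 1) (by omega), h (n + 1) (κ + 1) (by omega),
        h (n + 1) (κ + 2) (by omega)]
    rw [h1, h2] at h3
    exact_mod_cast h3

theorem prim_zero {d : ℕ} (h : Defect X L d) {p q : ℤ} {κ : ℕ}
    (hn : p + q + κ + d + 1 ≤ n) : prim S κ p q = 0 := by
  have e : KK S κ p q = ⊥ := by
    rw [eq_bot_iff]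
    intro x hx
    obtain ⟨h1, h2⟩ := mem_KK.1 hx
    exact (Submodule.mem_bot ℂ).2 (h.inj (by push_cast; omega) (S.le _ h1) h2)
  unfold prim
  rw [e, finrank_bot]
  simp

theorem main_two (hS : Compat Φ S S') (hX : RelHR S) (hY : RelHR S')
    (hc : Intertwines Φ X.c Y.c) (hΦ : Intertwines Φ L L') (dX : Defect X L 2)
    (dY : Defect Y L' 2) (p q : ℤ) : S.h p q = S'.h p q := by
  refine (main hS hX hY hc hΦ fun p q κ h => ?_).1 p q
  rw [prim_zero dX (by push_cast; omega), prim_zero dY (by push_cast; omega)]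

end Pool.Agent.U233.DU
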