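import Pool.Agent.R929.DH.Ineq
import Pool.Agent.U233.DU.Defs
import Pool.Agent.U233.DT.Lin

/-!
# Ranks of the powers of `L`
-/

open scoped ComplexConjugate
open Module

namespace Pool.Agent.U233.DU

open Pool.Agent.W539.DI Pool.Agent.R929.DH
open Pool.Agent.U233.DT (rank_nullity G1 G2 semi_rank pair_rank)

variable {n : ℕ}

variable {X : KRing n} {L : X.R} {S : Part X L}

/-- rank of `L ^ j` on `G (p, q)` -/
noncomputable def rk (S : Part X L) (j : ℕ) (p q : ℤ) : ℕ :=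
  finrank ℂ ((S.G (p, q)).map (ml X (L ^ j)))

/-- nullity of `L ^ j` on `G (p, q)` -/
noncomputable def nl (S : Part X L) (j : ℕ) (p q : ℤ) : ℕ :=
  finrank ℂ (S.G (p, q) ⊓ LinearMap.ker (ml X (L ^ j)) : Submodule ℂ X.R)

theorem rk_nl (S : Part X L) (j : ℕ) (p q : ℤ) : rk S j p q + nl S j p q = S.h p q :=
  rank_nullity _ _

theorem finrank_KK (κ : ℕ) (p q : ℤ) : finrank ℂ (KK S κ p q) = nl S (κ + 1) p q := rfl

theorem mem_H {p q p' q' : ℤ} {x : X.R} (h : x ∈ X.H (p, q)) (hp : p = p') (hq : q = q') :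
    x ∈ X.H (p', q') := by
  subst hp hq
  exact h

theorem mem_G {p q p' q' : ℤ} {x : X.R} (h : x ∈ S.G (p, q)) (hp : p = p') (hq : q = q') :
    x ∈ S.G (p', q') := by
  subst hp hq
  exact h

theorem mem_KK {κ : ℕ} {p q : ℤ} {x : X.R} :
    x ∈ KK S κ p q ↔ x ∈ S.G (p, q) ∧ L ^ (κ + 1) * x = 0 := Iff.rfl

theorem mem_TT {κ : ℕ} {p q : ℤ} {x : X.R} : x ∈ TT S κ p q ↔
    ∃ y, (y ∈ S.G (p, q) ∧ L ^ κ * y = 0) ∧ ∃ z, (z ∈ S.G (p - 1, q - 1) ∧
      L ^ (κ + 2) * z = 0) ∧ y + L * z = x := by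
  unfold TT
  rw [Submodule.mem_sup]
  constructor
  · rintro ⟨y, hy, _, ⟨z, hz, rfl⟩, h⟩
    exact ⟨y, hy, z, hz, h⟩
  · rintro ⟨y, hy, z, hz, h⟩
    exact ⟨y, hy, L * z, ⟨z, hz, rfl⟩, h⟩

theorem mul_L_mem (_hm : L ∈ X.H (1, 1)) {p q : ℤ} {z : X.R} (hz : z ∈ S.G (p - 1, q - 1)) :
    L * z ∈ S.G (p, q) :=
  mem_G (S.mulL _ _ _ hz) (by ring) (by ring)

theorem Lpow_mem (j : ℕ) {p q : ℤ} {z : X.R} (hz : z ∈ S.G (p, q)) :
    L ^ j * z ∈ S.G (p + j, q + j) := by
  induction j with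
  | zero => simpa using hz
  | succ j ih =>
    rw [pow_succ', mul_assoc]
    exact mem_G (S.mulL _ _ _ ih) (by push_cast; ring) (by push_cast; ring)

theorem TT_le_KK (_hm : L ∈ X.H (1, 1)) (κ : ℕ) (p q : ℤ) : TT S κ p q ≤ KK S κ p q := by
  intro x hx
  obtain ⟨y, ⟨hy, hy2⟩, z, ⟨hz, hz2⟩, rfl⟩ := mem_TT.1 hx
  refine mem_KK.2 ⟨Submodule.add_mem _ hy (mul_L_mem _hm hz), ?_⟩
  rw [mul_add, pow_succ', mul_assoc, hy2, mul_zero, zero_add, ← pow_succ', ← mul_assoc,
    ← pow_succ]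
  exact hz2

/-- Multiplication by the powers of the Kähler class. -/
theorem ωpow_comm (hm : L ∈ X.H (1, 1)) (m j : ℕ) (x : X.R) :
    L ^ j * (X.ω ^ m * x) = X.ω ^ m * (L ^ j * x) := by
  rw [← mul_assoc, pow_central hm, mul_assoc]

theorem ωpow_mem (m : ℕ) {p q : ℤ} {x : X.R} (hx : x ∈ S.G (p, q)) :
    X.ω ^ m * x ∈ S.G (p + m, q + m) := by
  induction m with
  | zero => simpa using hx
  | succ j ih =>
    rw [pow_succ', mul_assoc]
    exact mem_G (S.mulω _ _ _ ih) (by push_cast; ring) (by push_cast; ring)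

theorem ω_KK (hm : L ∈ X.H (1, 1)) (m : ℕ) {κ : ℕ} {p q : ℤ} {x : X.R} (hx : x ∈ KK S κ p q) :
    X.ω ^ m * x ∈ KK S κ (p + m) (q + m) := by
  obtain ⟨h1, h2⟩ := mem_KK.1 hx
  exact mem_KK.2 ⟨ωpow_mem m h1, by rw [ωpow_comm hm, h2, mul_zero]⟩

theorem ω_TT (hm : L ∈ X.H (1, 1)) (m : ℕ) {κ : ℕ} {p q : ℤ} {x : X.R} (hx : x ∈ TT S κ p q) :
    X.ω ^ m * x ∈ TT S κ (p + m) (q + m) := by
  obtain ⟨y, ⟨hy, hy2⟩, z, ⟨hz, hz2⟩, rfl⟩ := mem_TT.1 hx
  refine mem_TT.2 ⟨X.ω ^ m * y, ⟨ωpow_mem m hy, by rw [ωpow_comm hm, hy2, mul_zero]⟩,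
    X.ω ^ m * z, ⟨mem_G (ωpow_mem m hz) (by ring) (by ring),
      by rw [ωpow_comm hm, hz2, mul_zero]⟩, ?_⟩
  rw [mul_add]
  congr 1
  have := ωpow_comm hm m 1 z
  rwa [pow_one] at this

theorem KK_cast {κ : ℕ} {p q p' q' : ℤ} {x : X.R} (h : x ∈ KK S κ p q) (hp : p = p')
    (hq : q = q') : x ∈ KK S κ p' q' := by
  subst hp hq
  exact h

theorem TT_cast {κ : ℕ} {p q p' q' : ℤ} {x : X.R} (h : x ∈ TT S κ p q) (hp : p = p')
    (hq : q = q') : x ∈ TT S κ p' q' := by
  subst hp hq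
  exact h

/-- The dimension of `TT`. -/
theorem finrank_TT (hm : L ∈ X.H (1, 1)) (κ : ℕ) (p q : ℤ) :
    finrank ℂ (TT S κ p q) + nl S (κ + 1) (p - 1) (q - 1) =
      nl S κ p q + nl S (κ + 2) (p - 1) (q - 1) := by
  set B : Submodule ℂ X.R := S.G (p - 1, q - 1) ⊓ LinearMap.ker (ml X (L ^ (κ + 2))) with hB
  have h1 := rank_nullity (ml X (L ^ κ)) (TT S κ p q)
  have h2 := rank_nullity (ml X (L ^ (κ + 1))) B
  have e1 : (TT S κ p q) ⊓ LinearMap.ker (ml X (L ^ κ)) =
      S.G (p, q) ⊓ LinearMap.ker (ml X (L ^ κ)) := by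
    apply le_antisymm
    · exact inf_le_inf_right _ ((TT_le_KK hm κ p q).trans inf_le_left)
    · exact le_inf le_sup_left inf_le_right
  have e2 : (TT S κ p q).map (ml X (L ^ κ)) = B.map (ml X (L ^ (κ + 1))) := by
    unfold TT
    rw [Submodule.map_sup, ← Submodule.map_comp]
    have e3 : (S.G (p, q) ⊓ LinearMap.ker (ml X (L ^ κ))).map (ml X (L ^ κ)) = ⊥ := by
      rw [eq_bot_iff]
      rintro _ ⟨x, hx, rfl⟩
      exact (Submodule.mem_bot ℂ).2 hx.2
    rw [e3, bot_sup_eq]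
    congr 1
    ext x
    show L ^ κ * (L * x) = L ^ (κ + 1) * x
    rw [← mul_assoc, ← pow_succ]
  have e4 : B ⊓ LinearMap.ker (ml X (L ^ (κ + 1))) =
      S.G (p - 1, q - 1) ⊓ LinearMap.ker (ml X (L ^ (κ + 1))) := by
    apply le_antisymm
    · exact inf_le_inf_right _ inf_le_left
    · refine le_inf (le_inf inf_le_left ?_) inf_le_right
      rintro x ⟨-, hx⟩
      show L ^ (κ + 2) * x = 0
      have hx' : L ^ (κ + 1) * x = 0 := hx
      rw [show κ + 2 = (κ + 1) + 1 from rfl, pow_succ', mul_assoc, hx', mul_zero]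
  rw [e1, e2] at h1
  rw [e4] at h2
  unfold nl
  rw [← hB]
  omega

/-- duality -/
theorem rk_dual1 (hm : L ∈ X.H (1, 1)) {j : ℕ} {p q p' q' : ℤ} (hp : p + p' + j = n)
    (hq : q + q' + j = n) : rk S j p q = rk S j p' q' := by
  let B : S.G (p, q) →ₗ[ℂ] Dual ℂ (S.G (p', q')) :=
    LinearMap.mk₂ ℂ (fun (x : S.G (p, q)) (y : S.G (p', q')) =>
        X.tr (L ^ j * ((x : X.R) * (y : X.R))))
      (fun x x' y => by simp only [Submodule.coe_add, add_mul, mul_add, map_add])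
      (fun c x y => by simp only [Submodule.coe_smul, smul_mul_assoc, mul_smul_comm, map_smul])
      (fun x y y' => by simp only [Submodule.coe_add, mul_add, map_add])
      (fun c x y => by simp only [Submodule.coe_smul, mul_smul_comm, map_smul])
  have hB : ∀ x y, B x y = X.tr (L ^ j * ((x : X.R) * (y : X.R))) := fun x y => rfl
  have h1 := LinearMap.finrank_range_add_finrank_ker B
  have h2 := LinearMap.finrank_range_add_finrank_ker B.flip
  have h3 := pair_rank B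
  have k1 : LinearMap.ker B = Submodule.comap (S.G (p, q)).subtype
      (S.G (p, q) ⊓ LinearMap.ker (ml X (L ^ j))) := by
    ext x
    rw [LinearMap.mem_ker, Submodule.mem_comap, Submodule.mem_inf]
    constructor
    · intro hx
      refine ⟨x.2, ?_⟩
      show L ^ j * (x : X.R) = 0
      refine S.pd (p + j) (q + j) _ (Lpow_mem j x.2) fun y hy => ?_
      have hy' : y ∈ S.G (p', q') := mem_G hy (by omega) (by omega)
      have := congrArg (fun g => g ⟨y, hy'⟩) hx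
      simp only [hB] at this
      rw [mul_assoc]
      exact this
    · rintro ⟨-, hx⟩
      have hx' : L ^ j * (x : X.R) = 0 := hx
      ext y
      show B x y = 0
      rw [hB, ← mul_assoc, hx', zero_mul, map_zero]
  have k2 : LinearMap.ker B.flip = Submodule.comap (S.G (p', q')).subtype
      (S.G (p', q') ⊓ LinearMap.ker (ml X (L ^ j))) := by
    ext y
    rw [LinearMap.mem_ker, Submodule.mem_comap, Submodule.mem_inf]
    have hsw : ∀ x : X.R, L ^ j * (x * (y : X.R)) = x * (L ^ j * (y : X.R)) := by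
      intro x
      rw [← mul_assoc, pow_central hm, mul_assoc]
    constructor
    · intro hy
      refine ⟨y.2, ?_⟩
      show L ^ j * (y : X.R) = 0
      have hmem := Lpow_mem (S := S) j y.2
      refine S.pd (p' + j) (q' + j) _ hmem fun x hx => ?_
      have hx' : x ∈ S.G (p, q) := mem_G hx (by omega) (by omega)
      have := congrArg (fun g => g ⟨x, hx'⟩) hy
      simp only [LinearMap.flip_apply, hB] at this
      rw [hsw] at this
      rw [X.comm _ _ _ _ _ _ (S.le _ hmem) (S.le _ hx'), map_smul]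
      have h0 : X.tr (x * (L ^ j * (y : X.R))) = 0 := this
      rw [h0, smul_zero]
    · rintro ⟨-, hy⟩
      have hy' : L ^ j * (y : X.R) = 0 := hy
      ext x
      show B x y = 0
      rw [hB, hsw, hy', mul_zero, map_zero]
  rw [k1, finrank_comap_le inf_le_left] at h1
  rw [k2, finrank_comap_le inf_le_left] at h2
  have h4 := rk_nl S j p q
  have h5 := rk_nl S j p' q'
  have h1' : finrank ℂ (LinearMap.range B) + nl S j p q = S.h p q := h1
  have h2' : finrank ℂ (LinearMap.range B.flip) + nl S j p' q' = S.h p' q' := h2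
  omega

theorem finrank_bar (A B : Submodule ℂ X.R) (h1 : ∀ x ∈ A, X.bar x ∈ B)
    (h2 : ∀ x ∈ B, X.bar x ∈ A) : finrank ℂ A = finrank ℂ B := by
  let f : A →ₛₗ[starRingEnd ℂ] B :=
    { toFun := fun x => ⟨X.bar x, h1 _ x.2⟩
      map_add' := fun x y => by ext; simp
      map_smul' := fun a x => by ext; simp [LinearMap.map_smulₛₗ] }
  let g : B →ₛₗ[starRingEnd ℂ] A :=
    { toFun := fun x => ⟨X.bar x, h2 _ x.2⟩
      map_add' := fun x y => by ext; simp
      map_smul' := fun a x => by ext; simp [LinearMap.map_smulₛₗ] }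
  let e : A ≃ₛₗ[starRingEnd ℂ] B :=
    { f with
      invFun := g
      left_inv := fun x => Subtype.ext (X.bar_bar x)
      right_inv := fun x => Subtype.ext (X.bar_bar x) }
  have h1 : finrank ℝ A = finrank ℝ B := by
    refine LinearEquiv.finrank_eq
      { toFun := fun x => e x
        map_add' := fun x y => map_add e x y
        map_smul' := fun r x => ?_
        invFun := fun x => e.symm x
        left_inv := fun x => e.symm_apply_apply x
        right_inv := fun x => e.apply_symm_apply x }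
    have := e.map_smulₛₗ (r : ℂ) x
    rw [Complex.conj_ofReal] at this
    simpa [Complex.coe_smul] using this
  rw [finrank_real_of_complex, finrank_real_of_complex] at h1
  omega

theorem h_swap (S : Part X L) (p q : ℤ) : S.h p q = S.h q p :=
  finrank_bar _ _ (S.bar p q) (S.bar q p)

theorem nl_swap (hb : X.bar L = L) (j : ℕ) (p q : ℤ) : nl S j p q = nl S j q p := by
  have key : ∀ p q : ℤ, ∀ x ∈ S.G (p, q) ⊓ LinearMap.ker (ml X (L ^ j)),
      X.bar x ∈ S.G (q, p) ⊓ LinearMap.ker (ml X (L ^ j)) := by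
    rintro p q x ⟨hx1, hx2⟩
    refine ⟨S.bar _ _ _ hx1, ?_⟩
    have hx3 : L ^ j * x = 0 := hx2
    show L ^ j * X.bar x = 0
    rw [← bar_pow hb, hx3, map_zero]
  exact finrank_bar _ _ (key p q) (key q p)

theorem rk_dual (hm : L ∈ X.H (1, 1)) (hb : X.bar L = L) {j : ℕ} {p q p' q' : ℤ}
    (hp : p + q' + j = n) (hq : q + p' + j = n) : rk S j p q = rk S j p' q' := by
  rw [rk_dual1 hm hp hq]
  have h1 := rk_nl S j p' q'
  have h2 := rk_nl S j q' p'
  have h3 := nl_swap (S := S) hb j p' q'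
  have h4 := h_swap S p' q'
  omega

/-- The dimension of `KK / TT`. -/
noncomputable def bt (S : Part X L) (κ : ℕ) (p q : ℤ) : ℤ :=
  rk S κ p q - rk S (κ + 1) p q - rk S (κ + 1) (p - 1) (q - 1) +
    rk S (κ + 2) (p - 1) (q - 1)

theorem bt_eq (hm : L ∈ X.H (1, 1)) (κ : ℕ) (p q : ℤ) :
    bt S κ p q = finrank ℂ (KK S κ p q) - finrank ℂ (TT S κ p q) := by
  have h1 := finrank_TT (S := S) hm κ p q
  have h2 := rk_nl S κ p q
  have h3 := rk_nl S (κ + 1) p q
  have h4 := rk_nl S (κ + 1) (p - 1) (q - 1)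
  have h5 := rk_nl S (κ + 2) (p - 1) (q - 1)
  rw [finrank_KK]
  unfold bt
  omega

theorem bt_prim (hm : L ∈ X.H (1, 1)) (κ : ℕ) (p q : ℤ) : bt S κ p q = prim S κ p q := by
  have h1 := Submodule.finrank_mono (TT_le_KK (S := S) hm κ p q)
  rw [bt_eq hm]
  unfold prim
  omega

theorem bt_dual (hm : L ∈ X.H (1, 1)) (hb : X.bar L = L) {κ : ℕ} {p q p' q' : ℤ}
    (hp : p + q' + κ = n) (hq : q + p' + κ = n) : bt S κ p q = bt S κ p' q' := by
  unfold bt
  rw [rk_dual hm hb hp hq,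
    rk_dual hm hb (j := κ + 1) (p := p) (q := q) (p' := p' - 1) (q' := q' - 1)
      (by push_cast; omega) (by push_cast; omega),
    rk_dual hm hb (j := κ + 1) (p := p - 1) (q := q - 1) (p' := p') (q' := q')
      (by push_cast; omega) (by push_cast; omega),
    rk_dual hm hb (j := κ + 2) (p := p - 1) (q := q - 1) (p' := p' - 1) (q' := q' - 1)
      (by push_cast; omega) (by push_cast; omega)]
  ring

end Pool.Agent.U233.DU
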