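import Pool.Agent.R941.OH.HStr
import Pool.Agent.U233.DU.Main
import Pool.Agent.U233.DU.Alg

/-!
# Central idempotents are self-adjoint
-/

set_option autoImplicit false

open scoped ComplexConjugate
open Module Pool.Agent.W539.DI

namespace Pool.Agent.U233.DU

open Pool.Agent.R941.OH

variable {E : Type} [Ring E] [Algebra ℚ E] {n : ℕ} {X : KRing n} (A : Act E X)

theorem F_nd (X : KRing n) {y : X.R} (h : ∀ x, F X x y = 0) : y = 0 := by
  have h1 : X.bar y = 0 := by
    refine nd_right X fun x => ?_
    refine X.ind (P := fun x => X.tr (x * X.bar y) = 0) ?_ ?_ ?_ x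
    · simp
    · intro a b ha hb
      rw [add_mul, map_add, ha, hb, add_zero]
    · intro p q x hx
      have h2 := h x
      rw [F_of X hx] at h2
      exact (mul_eq_zero.1 h2).resolve_left (zpow_ne_zero _ Complex.I_ne_zero)
  rw [← X.bar_bar y, h1, map_zero]

theorem adj_unique {a b : E} (h : ∀ x y, F X x (A.ρ a y) = F X x (A.ρ b y)) : a = b := by
  rw [← sub_eq_zero]
  apply A.inj
  rw [map_zero]
  ext y
  refine F_nd X fun x => ?_
  have h1 := F_add_right X x (A.ρ (a - b) y) (A.ρ b y)
  have h2 : A.ρ (a - b) y + A.ρ b y = A.ρ a y := by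
    rw [map_sub, LinearMap.sub_apply, sub_add_cancel]
  rw [h2, h x y] at h1
  exact right_eq_add.1 h1

/-- The adjoint. -/
noncomputable def star (a : E) : E := (A.adj a).choose

theorem star_spec (a : E) (x y : X.R) : F X (A.ρ a x) y = F X x (A.ρ (star A a) y) :=
  (A.adj a).choose_spec x y

theorem star_add (a b : E) : star A (a + b) = star A a + star A b := by
  refine adj_unique A fun x y => ?_
  rw [← star_spec, map_add, map_add, LinearMap.add_apply, LinearMap.add_apply, F_add_left,
    F_add_right, star_spec, star_spec]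

theorem star_mul (a b : E) : star A (a * b) = star A b * star A a := by
  refine adj_unique A fun x y => ?_
  rw [← star_spec, map_mul, map_mul, Module.End.mul_apply, Module.End.mul_apply, star_spec,
    star_spec]

theorem star_one : star A 1 = 1 := by
  refine adj_unique A fun x y => ?_
  rw [← star_spec, map_one]
  rfl

theorem star_inj {a : E} (h : star A a = 0) : a = 0 := by
  refine A.zero_of_typ fun p q x hx => ?_
  refine A.h_pos (A.typ_mem' a hx) ?_
  unfold Act.h
  rw [star_spec, h, map_zero, LinearMap.zero_apply, F_zero_right]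

theorem star_surj [FiniteDimensional ℚ E] (b : E) : ∃ a, star A a = b := by
  let f : E →ₗ[ℚ] E := (AddMonoidHom.mk' (star A) (star_add A)).toRatLinearMap
  have hf : Function.Injective f := by
    rw [injective_iff_map_eq_zero]
    intro a ha
    exact star_inj A ha
  exact (LinearMap.injective_iff_surjective.1 hf) b

/-- A central idempotent is self-adjoint. -/
theorem star_central [FiniteDimensional ℚ E] {π : E} (hπ : π * π = π)
    (hc : ∀ a, a * π = π * a) : star A π = π := by
  obtain ⟨b, hb⟩ : ∃ b, b = star A π := ⟨_, rfl⟩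
  have bb : b * b = b := by rw [hb, ← star_mul, hπ]
  have bc : ∀ a, a * b = b * a := by
    intro a
    obtain ⟨c, rfl⟩ := star_surj A a
    rw [hb, ← star_mul, ← star_mul, hc]
  have sb : star A (1 - π) = 1 - b := by
    have h1 := star_add A (1 - π) π
    rw [sub_add_cancel, star_one, ← hb] at h1
    exact eq_sub_of_add_eq h1.symm
  -- `π (1 - b) = 0`
  have e1 : π * (1 - b) = 0 := by
    refine A.zero_of_typ fun p q x hx => ?_
    refine A.h_pos (A.typ_mem' _ hx) ?_
    unfold Act.h
    have h1 : A.ρ (π * (1 - b)) x = A.ρ π (A.ρ (1 - b) x) := by rw [map_mul]; rfl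
    have h2 : b * (A.L.W * (π * (1 - b))) = 0 := by
      calc b * (A.L.W * (π * (1 - b))) = A.L.W * (π * (b * (1 - b))) := by
            rw [← mul_assoc b, ← bc, mul_assoc, ← mul_assoc b π, ← bc π, mul_assoc π b]
        _ = 0 := by rw [mul_sub, mul_one, bb, sub_self, mul_zero, mul_zero]
    conv_lhs =>
      arg 2
      rw [h1]
    rw [star_spec, ← hb, ← Module.End.mul_apply (A.ρ A.L.W), ← map_mul, ← Module.End.mul_apply,
      ← map_mul, h2, map_zero, LinearMap.zero_apply, F_zero_right]
  -- `(1 - π) b = 0`
  have e2 : (1 - π) * b = 0 := by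
    refine A.zero_of_typ fun p q x hx => ?_
    refine A.h_pos (A.typ_mem' _ hx) ?_
    unfold Act.h
    have h1 : A.ρ ((1 - π) * b) x = A.ρ (1 - π) (A.ρ b x) := by rw [map_mul]; rfl
    have h2 : (1 - b) * (A.L.W * ((1 - π) * b)) = 0 := by
      have h3 : (1 - b) * b = 0 := by rw [sub_mul, one_mul, bb, sub_self]
      calc (1 - b) * (A.L.W * ((1 - π) * b)) = (1 - b) * (b * (A.L.W * (1 - π))) := by
            rw [bc (1 - π), ← mul_assoc A.L.W, bc A.L.W, mul_assoc b]
        _ = 0 := by rw [← mul_assoc, h3, zero_mul]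
    conv_lhs =>
      arg 2
      rw [h1]
    rw [star_spec, sb, ← Module.End.mul_apply (A.ρ A.L.W), ← map_mul, ← Module.End.mul_apply,
      ← map_mul, h2, map_zero, LinearMap.zero_apply, F_zero_right]
  rw [← hb]
  have h1 : π = π * b := by
    rw [mul_sub, mul_one, sub_eq_zero] at e1
    exact e1
  have h2 : b = π * b := by
    rw [sub_mul, one_mul, sub_eq_zero] at e2
    exact e2
  rw [h2, ← h1]

end Pool.Agent.U233.DU
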